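import Pool.Agent.Helper70_ls.Det4

/-!
# Classes of one parity
-/

open CategoryTheory AlgebraicGeometry

universe u v

namespace Pool.Agent.Helper70Sg

open Pool.Agent.H914 Pool.Agent.H914.VarClass Pool.Agent.H914.VarClass.Obj
  Pool.Agent.H914.WeilCohomology Pool.Agent.Helper70Rk Pool.Agent.Helper70Ls

variable {k : Type u} [Field k] {𝒱 : VarClass k} {ops : CycleOps 𝒱}
  {W : WeilCohomology.{u, v} ops} {X Y Z : 𝒱.Obj}

/-- The classes of the parity of `e`. -/
noncomputable def pty (W : WeilCohomology.{u, v} ops) (Z : 𝒱.Obj) (e : ℕ) :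
    Submodule W.K (W.H Z) := ⨆ j : {j : ℕ // j % 2 = e % 2}, W.gr Z j

lemma gr_le_pty {e j : ℕ} (h : j % 2 = e % 2) : W.gr Z j ≤ pty W Z e :=
  le_iSup (fun j : {j : ℕ // j % 2 = e % 2} => W.gr Z j) ⟨j, h⟩

lemma pty_congr {e e' : ℕ} (h : e % 2 = e' % 2) : pty W Z e = pty W Z e' := by
  apply le_antisymm
  · exact iSup_le fun j => gr_le_pty (j.2.trans h)
  · exact iSup_le fun j => gr_le_pty (j.2.trans h.symm)

lemma pty_ind {e : ℕ} {p : W.H Z → Prop} {x : W.H Z} (hx : x ∈ pty W Z e) (h0 : p 0)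
    (hm : ∀ j, j % 2 = e % 2 → ∀ a ∈ W.gr Z j, p a) (ha : ∀ a b, p a → p b → p (a + b)) : p x := by
  refine Submodule.iSup_induction (fun j : {j : ℕ // j % 2 = e % 2} => W.gr Z j)
    (motive := p) hx (fun j a ha' => hm j j.2 a ha') h0 ha

lemma neg_pow_congr {K : Type*} [Ring K] {a b : ℕ} (h : a % 2 = b % 2) :
    (-1 : K) ^ a = (-1) ^ b := by
  rcases Nat.even_or_odd a with ha | ha
  · have hb : Even b := by rw [Nat.even_iff] at ha ⊢; omega
    rw [ha.neg_one_pow, hb.neg_one_pow]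
  · have hb : Odd b := by rw [Nat.odd_iff] at ha ⊢; omega
    rw [ha.neg_one_pow, hb.neg_one_pow]

lemma pty_comm {i j : ℕ} {a b : W.H Z} (ha : a ∈ pty W Z i) (hb : b ∈ pty W Z j) :
    a * b = (-1 : W.K) ^ (i * j) • (b * a) := by
  refine pty_ind (p := fun a => a * b = (-1 : W.K) ^ (i * j) • (b * a)) ha ?_ ?_ ?_
  · rw [zero_mul, mul_zero, smul_zero]
  · intro i' hi' a ha
    refine pty_ind (p := fun b => a * b = (-1 : W.K) ^ (i * j) • (b * a)) hb ?_ ?_ ?_
    · rw [zero_mul, mul_zero, smul_zero]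
    · intro j' hj' b hb
      rw [W.comm ha hb, neg_pow_congr (a := i' * j') (b := i * j)
        (by rw [Nat.mul_mod, hi', hj', ← Nat.mul_mod])]
    · intro a' b' h1 h2
      rw [mul_add, add_mul, smul_add, h1, h2]
  · intro a' b' h1 h2
    rw [add_mul, mul_add, smul_add, h1, h2]

lemma pty_map (f : X ⟶ Y) {i : ℕ} {a : W.H Y} (ha : a ∈ pty W Y i) :
    W.map f a ∈ pty W X i := by
  refine pty_ind (p := fun a => W.map f a ∈ pty W X i) ha ?_ ?_ ?_
  · rw [map_zero]; exact Submodule.zero_mem _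
  · exact fun j hj a ha => gr_le_pty hj (W.map_mem f ha)
  · intro a b h1 h2
    rw [map_add]
    exact Submodule.add_mem _ h1 h2

lemma pty_mul {i j : ℕ} {a b : W.H Z} (ha : a ∈ pty W Z i) (hb : b ∈ pty W Z j) :
    a * b ∈ pty W Z (i + j) := by
  refine pty_ind (p := fun a => a * b ∈ pty W Z (i + j)) ha ?_ ?_ ?_
  · rw [zero_mul]; exact Submodule.zero_mem _
  · intro i' hi' a ha
    refine pty_ind (p := fun b => a * b ∈ pty W Z (i + j)) hb ?_ ?_ ?_
    · rw [mul_zero]; exact Submodule.zero_mem _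
    · intro j' hj' b hb
      exact gr_le_pty (by rw [Nat.add_mod, hi', hj', ← Nat.add_mod]) (W.mul_mem ha hb)
    · intro a' b' h1 h2
      rw [mul_add]
      exact Submodule.add_mem _ h1 h2
  · intro a' b' h1 h2
    rw [add_mul]
    exact Submodule.add_mem _ h1 h2

lemma pty_even {i : ℕ} {a : W.H Z} (ha : a ∈ pty W Z (2 * i)) (b : W.H Z) : a * b = b * a := by
  refine pty_ind (p := fun a => a * b = b * a) ha ?_ ?_ ?_
  · rw [zero_mul, mul_zero]
  · intro j hj a ha
    obtain ⟨l, rfl⟩ : ∃ l, j = 2 * l := ⟨j / 2, by omega⟩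
    exact W.even_comm ha b
  · intro a' b' h1 h2
    rw [add_mul, mul_add, h1, h2]

/-- Products of classes of different parities have trace zero. -/
lemma tr_pty {i j : ℕ} (h : i % 2 ≠ j % 2) {a b : W.H Z} (ha : a ∈ pty W Z i)
    (hb : b ∈ pty W Z j) : W.tr Z (a * b) = 0 := by
  refine pty_ind (p := fun a => W.tr Z (a * b) = 0) ha ?_ ?_ ?_
  · rw [zero_mul, map_zero]
  · intro i' hi' a ha
    refine pty_ind (p := fun b => W.tr Z (a * b) = 0) hb ?_ ?_ ?_
    · rw [mul_zero, map_zero]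
    · intro j' hj' b hb
      exact W.tr_eq_zero (W.mul_mem ha hb) (by omega)
    · intro a' b' h1 h2
      rw [mul_add, map_add, h1, h2, add_zero]
  · intro a' b' h1 h2
    rw [add_mul, map_add, h1, h2, add_zero]

/-- A family of additive subgroups of the cohomology groups stable under the operations. -/
structure ClSys (W : WeilCohomology.{u, v} ops) where
  /-- the subgroups -/
  S : ∀ Z : 𝒱.Obj, AddSubgroup (W.H Z)
  mul : ∀ {Z : 𝒱.Obj} {x y : W.H Z}, x ∈ S Z → y ∈ S Z → x * y ∈ S Z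
  map : ∀ {X Y : 𝒱.Obj} (f : X ⟶ Y) {x : W.H Y}, x ∈ S Y → W.map f x ∈ S X

/-- The combinations with coefficients in the coefficient field. -/
noncomputable def algSys (W : WeilCohomology.{u, v} ops) : ClSys W where
  S Z := (Alg W Z).toAddSubgroup
  mul := Alg.mul
  map := Alg.map

/-- The combinations with rational coefficients. -/
noncomputable def ratAlg (W : WeilCohomology.{u, v} ops) (Z : 𝒱.Obj) : AddSubgroup (W.H Z) :=
  AddSubgroup.closure {c | ∃ (j : ℕ) (z : Z.Cycles), Z.IsCyc j z ∧ W.cl Z z = c}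

lemma ratAlg.cl {j : ℕ} {z : Z.Cycles} (hz : Z.IsCyc j z) : W.cl Z z ∈ ratAlg W Z :=
  AddSubgroup.subset_closure ⟨j, z, hz, rfl⟩

/-- The combinations with rational coefficients. -/
noncomputable def ratSys (W : WeilCohomology.{u, v} ops) : ClSys W where
  S Z := ratAlg W Z
  mul := by
    intro Z x y hx hy
    induction hx using AddSubgroup.closure_induction with
    | mem x hx =>
      obtain ⟨j, z, hz, rfl⟩ := hx
      induction hy using AddSubgroup.closure_induction with
      | mem y hy =>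
        obtain ⟨i, w, hw, rfl⟩ := hy
        rw [← W.cl_mul]
        exact ratAlg.cl (ops.mul_mem hz hw)
      | zero => rw [mul_zero]; exact AddSubgroup.zero_mem _
      | add x y _ _ hx hy => rw [mul_add]; exact AddSubgroup.add_mem _ hx hy
      | neg x _ hx => rw [mul_neg]; exact AddSubgroup.neg_mem _ hx
    | zero => rw [zero_mul]; exact AddSubgroup.zero_mem _
    | add x y _ _ hx hy => rw [add_mul]; exact AddSubgroup.add_mem _ hx hy
    | neg x _ hx => rw [neg_mul]; exact AddSubgroup.neg_mem _ hx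
  map := by
    intro X Y f x hx
    induction hx using AddSubgroup.closure_induction with
    | mem x hx =>
      obtain ⟨j, z, hz, rfl⟩ := hx
      rw [← W.cl_pull]
      exact ratAlg.cl (ops.pull_mem f hz)
    | zero => rw [map_zero]; exact AddSubgroup.zero_mem _
    | add x y _ _ hx hy => rw [map_add]; exact AddSubgroup.add_mem _ hx hy
    | neg x _ hx => rw [map_neg]; exact AddSubgroup.neg_mem _ hx

lemma ClSys.neg_one_pow (C : ClSys W) (n : ℕ) {x : W.H Z} (hx : x ∈ C.S Z) :
    (-1 : W.K) ^ n • x ∈ C.S Z := by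
  rcases Nat.even_or_odd n with h | h
  · rw [h.neg_one_pow, one_smul]; exact hx
  · rw [h.neg_one_pow, neg_one_smul]; exact AddSubgroup.neg_mem _ hx

lemma ClSys.sign (C : ClSys W) (n : ℕ) {x : W.H Z} (hx : x ∈ C.S Z) (s : ℤˣ) :
    ((s : ℤ) : W.K) ^ n • x ∈ C.S Z := by
  rcases Int.units_eq_one_or s with h | h
  · rw [h]; simpa using hx
  · rw [h]; simpa using C.neg_one_pow n hx

end Pool.Agent.Helper70Sg
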