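import Pool.Agent.Helper70_sg.Sg0

/-!
# Antisymmetrised external products of classes of one parity
-/

open CategoryTheory AlgebraicGeometry

universe u v

namespace Pool.Agent.Helper70Sg

open Pool.Agent.H914 Pool.Agent.H914.VarClass Pool.Agent.H914.VarClass.Obj
  Pool.Agent.H914.WeilCohomology Pool.Agent.Helper70Rk Pool.Agent.Helper70Ls

variable {k : Type u} [Field k] {𝒱 : VarClass k} {ops : CycleOps 𝒱}
  {W : WeilCohomology.{u, v} ops} {X Y Z : 𝒱.Obj}

/-- The external product as a multilinear map. -/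
noncomputable def extMV (X : 𝒱.Obj) (V : Submodule W.K (W.H X)) (n : ℕ) :
    MultilinearMap W.K (fun _ : Fin (n + 1) => V) (W.H (pow X n)) :=
  (MultilinearMap.mkPiAlgebraFin W.K (n + 1) (W.H (pow X n))).compLinearMap
    (fun j => (W.map (pr X n j)).toLinearMap ∘ₗ V.subtype)

lemma extMV_apply (V : Submodule W.K (W.H X)) (n : ℕ) (v : Fin (n + 1) → V) :
    extMV X V n v = extFam W n fun j => (v j : W.H X) := by
  rw [extMV, MultilinearMap.compLinearMap_apply, MultilinearMap.mkPiAlgebraFin_apply, extFam_eq]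
  rfl

/-- The antisymmetrised external product as an alternating map. -/
noncomputable def detMV (X : 𝒱.Obj) (V : Submodule W.K (W.H X)) (n : ℕ) :
    V [⋀^Fin (n + 1)]→ₗ[W.K] (W.H (pow X n)) :=
  MultilinearMap.alternatization (extMV X V n)

lemma detMV_apply (V : Submodule W.K (W.H X)) (n : ℕ) (v : Fin (n + 1) → V) :
    detMV X V n v = detClass W n fun j => (v j : W.H X) := by
  rw [detMV, MultilinearMap.alternatization_apply, detClass]
  refine Finset.sum_congr rfl fun σ _ => ?_
  rw [MultilinearMap.domDomCongr_apply, extMV_apply, Units.smul_def,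
    ← Int.cast_smul_eq_zsmul W.K]

/-- Degrees. -/
lemma ext_pty {i : ℕ} (n : ℕ) {v : Fin (n + 1) → W.H X} (hv : ∀ j, v j ∈ pty W X i) :
    extFam W n v ∈ pty W (pow X n) (i * (n + 1)) := by
  induction n with
  | zero =>
    rw [zero_add, mul_one]
    exact hv 0
  | succ n ih =>
    have h1 := pty_mul (pty_map (fst (pow X n) X) (ih fun j => hv j.castSucc))
      (pty_map (snd (pow X n) X) (hv (Fin.last (n + 1))))
    have e : i * (n + 1) + i = i * (n + 1 + 1) := by ring
    rw [e] at h1
    exact h1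

lemma det_pty {i : ℕ} (n : ℕ) {v : Fin (n + 1) → W.H X} (hv : ∀ j, v j ∈ pty W X i) :
    detClass W n v ∈ pty W (pow X n) (i * (n + 1)) :=
  Submodule.sum_mem _ fun _ _ => Submodule.smul_mem _ _ (ext_pty n fun _ => hv _)

/-- Products of classes of odd degrees are alternating. -/
noncomputable def oddMV (W : WeilCohomology.{u, v} ops) (Z : 𝒱.Obj) {i : ℕ} (hi : Odd i) (N : ℕ) :
    (pty W Z i) [⋀^Fin N]→ₗ[W.K] (W.H Z) :=
  (ExteriorAlgebra.lift W.K (⟨(pty W Z i).subtype, fun m => by
    have h := pty_comm m.2 m.2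
    rw [(hi.mul hi).neg_one_pow, neg_one_smul] at h
    have h2 : (2 : W.K) • ((m : W.H Z) * m) = 0 := by
      rw [two_smul]
      nth_rewrite 1 [h]
      exact neg_add_cancel _
    exact (smul_eq_zero.1 h2).resolve_left two_ne_zero⟩ :
      {f : pty W Z i →ₗ[W.K] W.H Z // ∀ m, f m * f m = 0})).toLinearMap.compAlternatingMap
    (ExteriorAlgebra.ιMulti W.K N)

lemma oddMV_apply {i : ℕ} (hi : Odd i) (N : ℕ) (a : Fin N → pty W Z i) :
    oddMV W Z hi N a = (List.ofFn fun j => (a j : W.H Z)).prod := by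
  rw [oddMV, LinearMap.compAlternatingMap_apply, ExteriorAlgebra.ιMulti_apply,
    AlgHom.toLinearMap_apply, map_list_prod, List.map_ofFn]
  congr 2
  funext j
  rw [Function.comp_apply, ExteriorAlgebra.lift_ι_apply]
  rfl

/-- The product of classes of the same parity in a different order. -/
lemma prod_permP {i N : ℕ} (a : Fin N → W.H Z) (ha : ∀ j, a j ∈ pty W Z i)
    (σ : Equiv.Perm (Fin N)) :
    (List.ofFn fun j => a (σ j)).prod =
      ((Equiv.Perm.sign σ : ℤ) : W.K) ^ i • (List.ofFn a).prod := by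
  rcases Nat.even_or_odd i with hi | hi
  · have h1 : ((Equiv.Perm.sign σ : ℤ) : W.K) ^ i = 1 := by
      rcases Int.units_eq_one_or (Equiv.Perm.sign σ) with h | h
      · rw [h]; simp
      · rw [h]; simpa using hi.neg_one_pow
    rw [h1, one_smul]
    have h2 : (List.ofFn (a ∘ σ)).Perm (List.ofFn a) := Equiv.Perm.ofFn_comp_perm σ a
    refine List.Perm.prod_eq' h2 ?_
    rw [List.pairwise_ofFn]
    intro j l _
    change a (σ j) * a (σ l) = a (σ l) * a (σ j)
    rw [pty_comm (ha _) (ha _), (hi.mul_right i).neg_one_pow, one_smul]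
  · have h1 : ((Equiv.Perm.sign σ : ℤ) : W.K) ^ i = ((Equiv.Perm.sign σ : ℤ) : W.K) := by
      rcases Int.units_eq_one_or (Equiv.Perm.sign σ) with h | h
      · rw [h]; simp
      · rw [h]; simpa using hi.neg_one_pow
    rw [h1]
    have h2 := (oddMV W Z hi N).map_perm (fun j => (⟨a j, ha j⟩ : pty W Z i)) σ
    rw [oddMV_apply] at h2
    have h3 := oddMV_apply (W := W) hi N (fun j => (⟨a j, ha j⟩ : pty W Z i))
    rw [h3, Units.smul_def, ← Int.cast_smul_eq_zsmul W.K] at h2
    exact h2

lemma permMor_ext {i n : ℕ} (σ : Equiv.Perm (Fin (n + 1))) {v : Fin (n + 1) → W.H X}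
    (hv : ∀ j, v j ∈ pty W X i) :
    W.map (permMor X n σ) (extFam W n v) =
      ((Equiv.Perm.sign σ : ℤ) : W.K) ^ i • extFam W n fun j => v (σ⁻¹ j) := by
  rw [extFam_eq, extFam_eq, map_list_prod, List.map_ofFn]
  have h := prod_permP (W := W) (fun j => W.map (pr X n j) (v (σ⁻¹ j))) (i := i)
    (fun j => pty_map _ (hv _)) σ
  rw [← h]
  congr 2
  funext j
  rw [Function.comp_apply, ← W.map_comp, permMor, lifts_pr,
    show σ⁻¹ (σ j) = j from σ.symm_apply_apply j]

lemma asym_ext {i n : ℕ} {v : Fin (n + 1) → W.H X} (hv : ∀ j, v j ∈ pty W X i) :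
    asym W X i n (extFam W n v) = detClass W n v := by
  rw [asym, LinearMap.sum_apply, detClass,
    ← Equiv.sum_comp (Equiv.inv (Equiv.Perm (Fin (n + 1))))]
  refine Finset.sum_congr rfl fun σ _ => ?_
  rw [LinearMap.smul_apply, AlgHom.toLinearMap_apply, permMor_ext _ hv, smul_smul, ← pow_add,
    Equiv.inv_apply, inv_inv, Equiv.Perm.sign_inv]
  congr 1
  rcases Int.units_eq_one_or (Equiv.Perm.sign σ) with h | h
  · rw [h]; simp
  · rw [h]
    have : Odd (i + 1 + i) := ⟨i, by ring⟩
    simp [this.neg_one_pow]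

lemma asym_cl (C : ClSys W) {i n : ℕ} {x : W.H (pow X n)} (hx : x ∈ C.S (pow X n)) :
    asym W X i n x ∈ C.S (pow X n) := by
  rw [asym, LinearMap.sum_apply]
  refine AddSubgroup.sum_mem _ fun σ _ => ?_
  rw [LinearMap.smul_apply]
  exact C.sign _ (C.map _ hx) _

lemma asymL_cl (C : ClSys W) {i n : ℕ} {x : W.H ((pow X n).prod Y)}
    (hx : x ∈ C.S ((pow X n).prod Y)) : asymL W X Y i n x ∈ C.S ((pow X n).prod Y) := by
  rw [asymL, LinearMap.sum_apply]
  refine AddSubgroup.sum_mem _ fun σ _ => ?_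
  rw [LinearMap.smul_apply]
  exact C.sign _ (C.map _ hx) _

/-- External products of external products. -/
lemma ext_extP {X' Y' : 𝒱.Obj} {i j : ℕ} (a : W.H X) {b : W.H Y} {c : W.H X'} (d : W.H Y')
    (hc : c ∈ pty W X' i) (hb : b ∈ pty W Y j) :
    ext (ext a c) (ext b d) = (-1 : W.K) ^ (i * j) •
      (W.map (Obj.lift (fst (X.prod X') (Y.prod Y') ≫ fst X X')
        (snd (X.prod X') (Y.prod Y') ≫ fst Y Y')) (ext a b) *
      W.map (Obj.lift (fst (X.prod X') (Y.prod Y') ≫ snd X X')
        (snd (X.prod X') (Y.prod Y') ≫ snd Y Y')) (ext c d)) := by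
  rw [ext, ext, ext, ext, ext, map_mul, map_mul, map_mul, map_mul, ← W.map_comp, ← W.map_comp,
    ← W.map_comp, ← W.map_comp, ← W.map_comp, ← W.map_comp, ← W.map_comp, ← W.map_comp,
    Obj.lift_fst, Obj.lift_snd, Obj.lift_fst, Obj.lift_snd, mul_assoc, ← mul_assoc (W.map _ c),
    pty_comm (pty_map _ hc) (pty_map _ hb), smul_mul_assoc, mul_smul_comm, mul_assoc, mul_assoc]

/-- Powers of the form. -/
lemma words_cl (C : ClSys W) {B : Type*} [Fintype B] {i' i : ℕ} {x y : B → W.H X}
    (hx : ∀ b, x b ∈ pty W X i') (hy : ∀ b, y b ∈ pty W X i)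
    (h : ∑ b, ext (x b) (y b) ∈ C.S (X.prod X)) (n : ℕ) :
    ∑ v : Fin (n + 1) → B, ext (extFam W n fun j => x (v j)) (extFam W n fun j => y (v j)) ∈
      C.S ((pow X n).prod (pow X n)) := by
  induction n with
  | zero =>
    have h1 := Equiv.sum_comp (Equiv.funUnique (Fin 1) B) (fun b => ext (W := W) (x b) (y b))
    rw [← h1] at h
    exact h
  | succ n ih =>
    have h2 := C.mul (C.map (Obj.lift (fst ((pow X n).prod X) ((pow X n).prod X) ≫
        fst (pow X n) X) (snd ((pow X n).prod X) ((pow X n).prod X) ≫ fst (pow X n) X)) ih)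
      (C.map (Obj.lift (fst ((pow X n).prod X) ((pow X n).prod X) ≫
        snd (pow X n) X) (snd ((pow X n).prod X) ((pow X n).prod X) ≫ snd (pow X n) X)) h)
    have h3 := C.neg_one_pow (i' * (i * (n + 1))) h2
    rw [← Equiv.sum_comp (Fin.snocEquiv (fun _ : Fin (n + 2) => B)), Fintype.sum_prod_type]
    rw [map_sum, map_sum, Finset.sum_mul_sum, Finset.sum_comm, Finset.smul_sum] at h3
    refine Eq.subst (motive := fun z : W.H (((pow X n).prod X).prod ((pow X n).prod X)) =>
      z ∈ C.S (((pow X n).prod X).prod ((pow X n).prod X))) ?_ h3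
    refine Finset.sum_congr rfl fun b _ => ?_
    rw [Finset.smul_sum]
    refine Finset.sum_congr rfl fun v _ => ?_
    rw [← ext_extP _ _ (hx b) (ext_pty n fun j => hy (v j))]
    have e1 : ∀ z : B → W.H X, extFam W (n + 1) (fun j => z
        ((Fin.snocEquiv (fun _ : Fin (n + 2) => B)) (b, v) j)) =
        ext (extFam W n fun j => z (v j)) (z b) := by
      intro z
      change W.map (fst (pow X n) X) (extFam W n fun j => z (Fin.snoc (α := fun _ => B) v b
        j.castSucc)) * W.map (snd (pow X n) X) (z (Fin.snoc (α := fun _ => B) v b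
        (Fin.last (n + 1)))) = _
      simp only [Fin.snoc_castSucc, Fin.snoc_last]
      rfl
    rw [e1, e1]
    rfl

/-- **The form generates the determinant line.** -/
lemma det_cl (C : ClSys W) {i' i n : ℕ} {x y : Fin (n + 1) → W.H X}
    (hx : ∀ b, x b ∈ pty W X i') (hy : ∀ b, y b ∈ pty W X i)
    (h : ∑ b, ext (x b) (y b) ∈ C.S (X.prod X)) :
    ext (detClass W n x) (detClass W n y) ∈ C.S ((pow X n).prod (pow X n)) := by
  have h1 := asymL_cl C (i := i') (words_cl C hx hy h n)
  rw [map_sum] at h1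
  have h2 : ∀ v : Fin (n + 1) → Fin (n + 1),
      asymL W X (pow X n) i' n (ext (extFam W n fun j => x (v j)) (extFam W n fun j => y (v j))) =
        ext (detClass W n fun j => x (v j)) (extFam W n fun j => y (v j)) := by
    intro v
    rw [asymL_ext, asym_ext fun j => hx (v j)]
  rw [Finset.sum_congr rfl (fun v _ => h2 v), sum_perm] at h1
  swap
  · intro v hv
    have h3 : ¬ Function.Injective v := fun h => hv (Finite.injective_iff_bijective.1 h)
    have h4 := (detMV X (pty W X i') n).map_eq_zero_of_not_injective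
      (fun j => ⟨x (v j), hx (v j)⟩) (by
      intro h5
      apply h3
      intro a b hab
      exact h5 (by simp only [hab]))
    rw [detMV_apply] at h4
    rw [h4, ext_zero_left]
  · have h3 : ∀ σ : Equiv.Perm (Fin (n + 1)),
        ext (detClass W n fun j => x (σ j)) (extFam W n fun j => y (σ j)) =
          ext (detClass W n x)
            (((Equiv.Perm.sign σ : ℤ) : W.K) • extFam W n fun j => y (σ j)) := by
      intro σ
      have h4 := (detMV X (pty W X i') n).map_perm (fun j => (⟨x j, hx j⟩ : pty W X i')) σ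
      rw [detMV_apply, detMV_apply, Units.smul_def, ← Int.cast_smul_eq_zsmul W.K] at h4
      have h5 : (detClass W n fun j => x (σ j)) =
          ((Equiv.Perm.sign σ : ℤ) : W.K) • detClass W n x := h4
      rw [h5, ext_smul_left, ext_smul_right]
    rw [Finset.sum_congr rfl (fun σ _ => h3 σ), ← ext_sum_right] at h1
    exact h1

/-- Change of the basis. -/
lemma det_changeV {V : Submodule W.K (W.H X)} {n : ℕ}
    (b c : Module.Basis (Fin (n + 1)) W.K V) :
    ∃ r : W.K, r ≠ 0 ∧ (detClass W n fun j => (c j : W.H X)) =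
      r • detClass W n fun j => (b j : W.H X) := by
  refine ⟨b.det c, (b.isUnit_det c).ne_zero, ?_⟩
  have h1 : detMV X V n =
      (LinearMap.toSpanSingleton W.K _ (detMV X V n b)).compAlternatingMap b.det := by
    apply Module.Basis.ext_alternating b
    intro v hv
    set σ : Equiv.Perm (Fin (n + 1)) :=
      Equiv.ofBijective v (Finite.injective_iff_bijective.1 hv) with hσ
    have e : (fun j => b (v j)) = (b : Fin (n + 1) → V) ∘ σ := rfl
    rw [e, AlternatingMap.map_perm, AlternatingMap.map_perm, LinearMap.compAlternatingMap_apply,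
      LinearMap.toSpanSingleton_apply, Module.Basis.det_self, one_smul]
  have h2 := congrArg (fun f : V [⋀^Fin (n + 1)]→ₗ[W.K] (W.H (pow X n)) => f c) h1
  simp only [LinearMap.compAlternatingMap_apply, LinearMap.toSpanSingleton_apply,
    detMV_apply] at h2
  exact h2

end Pool.Agent.Helper70Sg
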