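import Pool.Agent.Helper70_sg.Sg1

/-!
# From the determinant line to the form
-/

open CategoryTheory AlgebraicGeometry

universe u v

namespace Pool.Agent.Helper70Sg

open Pool.Agent.H914 Pool.Agent.H914.VarClass Pool.Agent.H914.VarClass.Obj
  Pool.Agent.H914.WeilCohomology Pool.Agent.Helper70Rk Pool.Agent.Helper70Ls

variable {k : Type u} [Field k] {𝒱 : VarClass k} {ops : CycleOps 𝒱}
  {W : WeilCohomology.{u, v} ops} {X Y Z X' Y' : 𝒱.Obj}

lemma ext_mulP {i j : ℕ} (a : W.H X) {b : W.H Y} {c : W.H X} (d : W.H Y)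
    (hb : b ∈ pty W Y j) (hc : c ∈ pty W X i) :
    ext a b * ext c d = (-1 : W.K) ^ (j * i) • ext (a * c) (b * d) := by
  rw [ext, ext, ext, map_mul, map_mul, mul_assoc, ← mul_assoc (W.map _ b),
    pty_comm (pty_map _ hb) (pty_map _ hc), smul_mul_assoc, mul_smul_comm, mul_assoc, mul_assoc]

lemma ext_mul_evenP {i : ℕ} (a : W.H X) {b : W.H Y} (c : W.H X) (d : W.H Y)
    (hb : b ∈ pty W Y (2 * i)) : ext a b * ext c d = ext (a * c) (b * d) := by
  rw [ext, ext, ext, map_mul, map_mul, mul_assoc, ← mul_assoc (W.map _ b),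
    pty_even (pty_map _ hb), mul_assoc, mul_assoc]

/-- The traces of products of words. -/
lemma tr_wordsP {ρ : W.H X} {p : ℕ} (hρ : ρ ∈ pty W X (2 * p)) (i' i n : ℕ) :
    ∃ s : W.K, s ≠ 0 ∧ ∀ v v' : Fin (n + 1) → W.H X, (∀ j, v j ∈ pty W X i') →
      (∀ j, v' j ∈ pty W X i) →
      W.tr (pow X n) (xpow ρ n * (extFam W n v * extFam W n v')) =
        s * ∏ j, W.tr X (ρ * (v j * v' j)) := by
  induction n with
  | zero =>
    refine ⟨1, one_ne_zero, fun v v' _ _ => ?_⟩
    rw [Fin.prod_univ_succ, Fin.prod_univ_zero, mul_one, one_mul]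
    rfl
  | succ n ih =>
    obtain ⟨s, hs, h⟩ := ih
    refine ⟨(-1) ^ (i' * (i * (n + 1))) * s,
      mul_ne_zero (pow_ne_zero _ (neg_ne_zero.2 one_ne_zero)) hs, fun v v' hv hv' => ?_⟩
    rw [Fin.prod_univ_castSucc]
    change W.tr ((pow X n).prod X) (ext (xpow ρ n) ρ *
      (ext (extFam W n fun j => v j.castSucc) (v (Fin.last (n + 1))) *
        ext (extFam W n fun j => v' j.castSucc) (v' (Fin.last (n + 1))))) = _
    rw [ext_mulP _ _ (hv _) (ext_pty n fun j => hv' j.castSucc), mul_smul_comm,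
      ext_mul_evenP _ _ _ hρ, map_smul, tr_ext_eq, h _ _ (fun j => hv _) (fun j => hv' _),
      smul_eq_mul]
    ring

lemma ctr_extP (Ξ : W.H Z) {i e : ℕ} (w : W.H Z) {w' : W.H Z} {u : W.H X} (u' : W.H X)
    (hw' : w' ∈ pty W Z e) (hu : u ∈ pty W X i) :
    ctr Ξ X (ext (ext w u) (ext w' u')) =
      ((-1) ^ (i * e) * W.tr Z (Ξ * (w * w'))) • ext u u' := by
  have e1 : ctrMor Z X ≫ fst (Z.prod X) (Z.prod X) =
      Obj.lift (fst Z (X.prod X)) (snd Z (X.prod X) ≫ fst X X) := Obj.lift_fst _ _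
  have e2 : ctrMor Z X ≫ snd (Z.prod X) (Z.prod X) =
      Obj.lift (fst Z (X.prod X)) (snd Z (X.prod X) ≫ snd X X) := Obj.lift_snd _ _
  have h1 : W.map (ctrMor Z X) (ext (ext w u) (ext w' u')) =
      (-1 : W.K) ^ (i * e) • (W.map (fst Z (X.prod X)) (w * w') *
        W.map (snd Z (X.prod X)) (ext u u')) := by
    rw [ext, ext, ext, ext, map_mul, ← W.map_comp, ← W.map_comp, e1, e2, map_mul, map_mul,
      ← W.map_comp, ← W.map_comp, ← W.map_comp, ← W.map_comp, Obj.lift_fst, Obj.lift_snd,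
      Obj.lift_fst, Obj.lift_snd, map_mul, map_mul, ← W.map_comp, ← W.map_comp, mul_assoc,
      ← mul_assoc (W.map _ u), pty_comm (pty_map _ hu) (pty_map _ hw'), smul_mul_assoc,
      mul_smul_comm, mul_assoc, mul_assoc]
  rw [ctr, LinearMap.comp_apply, LinearMap.comp_apply, AlgHom.toLinearMap_apply, h1, map_smul,
    LinearMap.mulLeft_apply, ← mul_assoc, ← map_mul, map_smul, W.push_snd, smul_smul]

/-- **The determinant line generates the inverse form.** -/
lemma form_algP {ρ : W.H X} {p : ℕ} (hρ : ρ ∈ pty W X (2 * p)) (hρA : ρ ∈ Alg W X) {i n : ℕ}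
    {x y : Fin (n + 1) → W.H X} (hx : ∀ b, x b ∈ pty W X i) (hy : ∀ b, y b ∈ pty W X i)
    (hxy : ∀ a b, W.tr X (ρ * (x a * y b)) = if a = b then 1 else 0)
    (h : ext (detClass W n x) (detClass W n y) ∈ Alg W ((pow X n).prod (pow X n))) :
    ∑ b, ext (x b) (y b) ∈ Alg W (X.prod X) := by
  cases n with
  | zero =>
    have e : ∀ z : Fin (0 + 1) → W.H X, detClass W 0 z = z 0 := by
      intro z
      rw [detClass, Fintype.sum_eq_single (1 : Equiv.Perm (Fin (0 + 1)))
        (fun σ hσ => absurd (Equiv.ext fun a => Fin.ext (by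
          have := (σ a).2; have := a.2; rw [Equiv.Perm.one_apply]; omega)) hσ),
        Equiv.Perm.sign_one]
      simp [extFam]
    rw [e, e] at h
    rw [Fin.sum_univ_succ, Fin.sum_univ_zero, add_zero]
    exact h
  | succ n =>
    obtain ⟨s, hs, hs'⟩ := tr_wordsP (W := W) hρ i i n
    have h1 := ctr_alg (xpow_alg hρA n) (X := X) (Z := pow X n) h
    set s' : W.K := (-1) ^ (i * (i * (n + 1))) * s with hs'def
    have hs'0 : s' ≠ 0 := mul_ne_zero (pow_ne_zero _ (neg_ne_zero.2 one_ne_zero)) hs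
    have h2 : ∀ σ τ : Equiv.Perm (Fin (n + 2)),
        ctr (xpow ρ n) X (ext (X := (pow X n).prod X) (Y := (pow X n).prod X)
          (extFam W (n + 1) fun j => x (σ j)) (extFam W (n + 1) fun j => y (τ j))) =
          (s' * if σ = τ then 1 else 0) •
            ext (x (σ (Fin.last (n + 1)))) (y (τ (Fin.last (n + 1)))) := by
      intro σ τ
      change ctr (xpow ρ n) X (ext
        (ext (extFam W n fun j => x (σ j.castSucc)) (x (σ (Fin.last (n + 1)))))
        (ext (extFam W n fun j => y (τ j.castSucc)) (y (τ (Fin.last (n + 1)))))) = _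
      rw [ctr_extP _ _ _ (ext_pty n fun j => hy (τ j.castSucc)) (hx _),
        hs' _ _ (fun j => hx _) (fun j => hy _), hs'def]
      congr 1
      rw [← mul_assoc]
      congr 1
      by_cases hστ : σ = τ
      · subst hστ
        rw [if_pos rfl]
        exact Finset.prod_eq_one fun j _ => by rw [hxy, if_pos rfl]
      · rw [if_neg hστ]
        by_contra h3
        apply hστ
        have h4 : ∀ j : Fin (n + 1), σ j.castSucc = τ j.castSucc := by
          intro j
          by_contra h5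
          apply h3
          exact Finset.prod_eq_zero (Finset.mem_univ j) (by rw [hxy, if_neg h5])
        apply Equiv.ext
        intro a
        refine Fin.lastCases ?_ h4 a
        obtain ⟨b, hb⟩ := σ.surjective (τ (Fin.last (n + 1)))
        have h6 : b = Fin.last (n + 1) := by
          by_contra h7
          obtain ⟨c, rfl⟩ := Fin.exists_castSucc_eq.2 h7
          rw [h4] at hb
          exact h7 (τ.injective hb)
        rw [h6] at hb
        exact hb
    have h3 : ctr (xpow ρ n) X (ext (X := (pow X n).prod X) (Y := (pow X n).prod X)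
        (detClass W (n + 1) x) (detClass W (n + 1) y)) =
        s' • ∑ σ : Equiv.Perm (Fin (n + 2)),
          ext (x (σ (Fin.last (n + 1)))) (y (σ (Fin.last (n + 1)))) := by
      have h4 : ext (X := (pow X n).prod X) (Y := (pow X n).prod X)
          (detClass W (n + 1) x) (detClass W (n + 1) y) =
          ∑ σ : Equiv.Perm (Fin (n + 2)), ∑ τ : Equiv.Perm (Fin (n + 2)),
            (((Equiv.Perm.sign σ : ℤ) : W.K) * ((Equiv.Perm.sign τ : ℤ) : W.K)) •
              ext (X := (pow X n).prod X) (Y := (pow X n).prod X)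
                (extFam W (n + 1) fun j => x (σ j)) (extFam W (n + 1) fun j => y (τ j)) := by
        rw [detClass, detClass]
        refine (ext_sum_left (X := (pow X n).prod X) _ _ _).trans ?_
        refine Finset.sum_congr rfl fun σ _ => ?_
        refine (ext_sum_right (X := (pow X n).prod X) (Y := (pow X n).prod X) _ _ _).trans ?_
        refine Finset.sum_congr rfl fun τ _ => ?_
        refine (ext_smul_left (X := (pow X n).prod X) _ _ _).trans ?_
        rw [mul_smul]
        congr 1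
        exact ext_smul_right (X := (pow X n).prod X) (Y := (pow X n).prod X) _ _ _
      rw [h4, map_sum, Finset.smul_sum]
      refine Finset.sum_congr rfl fun σ _ => ?_
      rw [map_sum, Fintype.sum_eq_single σ]
      · rw [map_smul, h2, if_pos rfl, mul_one, smul_smul]
        congr 1
        rcases Int.units_eq_one_or (Equiv.Perm.sign σ) with h | h <;> rw [h] <;> simp
      · intro τ hτ
        rw [map_smul, h2, if_neg (Ne.symm hτ), mul_zero, zero_smul, smul_zero]
    have h5 : s' • ∑ σ : Equiv.Perm (Fin (n + 2)),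
        ext (x (σ (Fin.last (n + 1)))) (y (σ (Fin.last (n + 1)))) ∈ Alg W (X.prod X) := by
      rw [← h3]
      exact h1
    have h6 := Submodule.smul_mem _ s'⁻¹ h5
    rw [smul_smul, inv_mul_cancel₀ hs'0, one_smul] at h6
    exact sum_perm_point (K := W.K) (Fin.last (n + 1)) (fun a => ext (x a) (y a)) _ h6

/-- The determinant line is nondegenerate. -/
lemma tr_detP {ρ : W.H X} {p : ℕ} (hρ : ρ ∈ pty W X (2 * p)) {i' i n : ℕ}
    {x y : Fin (n + 1) → W.H X} (hx : ∀ b, x b ∈ pty W X i') (hy : ∀ b, y b ∈ pty W X i)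
    (hxy : ∀ a b, W.tr X (ρ * (x a * y b)) = if a = b then 1 else 0) :
    W.tr (pow X n) (xpow ρ n * (detClass W n x * detClass W n y)) ≠ 0 := by
  obtain ⟨s, hs, hs'⟩ := tr_wordsP (W := W) hρ i' i n
  have h2 : ∀ σ τ : Equiv.Perm (Fin (n + 1)),
      W.tr (pow X n) (xpow ρ n * ((extFam W n fun j => x (σ j)) * extFam W n fun j => y (τ j))) =
        if σ = τ then s else 0 := by
    intro σ τ
    rw [hs' _ _ (fun j => hx _) (fun j => hy _)]
    by_cases hστ : σ = τ
    · subst hστ
      rw [if_pos rfl, Finset.prod_eq_one fun j _ => by rw [hxy, if_pos rfl], mul_one]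
    · rw [if_neg hστ]
      obtain ⟨j, hj⟩ : ∃ j, σ j ≠ τ j := by
        by_contra h3
        push Not at h3
        exact hστ (Equiv.ext h3)
      rw [Finset.prod_eq_zero (Finset.mem_univ j) (by rw [hxy, if_neg hj]), mul_zero]
  have h3 : W.tr (pow X n) (xpow ρ n * (detClass W n x * detClass W n y)) =
      (Fintype.card (Equiv.Perm (Fin (n + 1))) : W.K) * s := by
    rw [detClass, detClass, Finset.sum_mul_sum, Finset.mul_sum, map_sum]
    have h4 : ∀ σ : Equiv.Perm (Fin (n + 1)), W.tr (pow X n) (xpow ρ n *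
        ∑ τ : Equiv.Perm (Fin (n + 1)),
          (((Equiv.Perm.sign σ : ℤ) : W.K) • extFam W n fun j => x (σ j)) *
            (((Equiv.Perm.sign τ : ℤ) : W.K) • extFam W n fun j => y (τ j))) = s := by
      intro σ
      rw [Finset.mul_sum, map_sum, Fintype.sum_eq_single σ]
      · rw [smul_mul_smul_comm, mul_smul_comm, map_smul, h2, if_pos rfl, smul_eq_mul]
        rcases Int.units_eq_one_or (Equiv.Perm.sign σ) with h | h <;> rw [h] <;> simp
      · intro τ hτ
        rw [smul_mul_smul_comm, mul_smul_comm, map_smul, h2, if_neg (Ne.symm hτ), smul_zero]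
    rw [Finset.sum_congr rfl fun σ _ => h4 σ, Finset.sum_const, Finset.card_univ, nsmul_eq_mul]
  rw [h3]
  exact mul_ne_zero (by exact_mod_cast Fintype.card_ne_zero) hs

/-- Contraction of two equal factors. -/
lemma contract_twoP {Ξ : W.H Y} {e : ℕ} (hΞA : Ξ ∈ Alg W Y)
    {δ : W.H Y} (hδ : δ ∈ pty W Y e) (ht : W.tr Y (Ξ * (δ * δ)) ≠ 0) {w : W.H Z}
    (h : ext (ext w δ) δ ∈ Alg W ((Z.prod Y).prod Y)) : w ∈ Alg W Z := by
  have h1 := Alg.push (snd Y Z) (Alg.mul (Alg.map (fst Y Z) hΞA)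
    (Alg.map (Obj.lift (Obj.lift (snd Y Z) (fst Y Z)) (fst Y Z)) h))
  have hδδ : δ * δ ∈ pty W Y (2 * e) := by
    have := pty_mul hδ hδ
    rwa [← two_mul] at this
  have h2 : W.map (fst Y Z) Ξ * W.map (Obj.lift (Obj.lift (snd Y Z) (fst Y Z)) (fst Y Z))
      (ext (ext w δ) δ) = W.map (fst Y Z) (Ξ * (δ * δ)) * W.map (snd Y Z) w := by
    rw [ext, ext, map_mul, ← W.map_comp, ← W.map_comp, Obj.lift_fst, Obj.lift_snd, map_mul,
      ← W.map_comp, ← W.map_comp, Obj.lift_fst, Obj.lift_snd, mul_assoc (W.map (snd Y Z) w),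
      ← map_mul, ← pty_even (pty_map (fst Y Z) hδδ), ← mul_assoc, ← map_mul]
  rw [h2, W.push_snd] at h1
  have h3 := Submodule.smul_mem _ (W.tr Y (Ξ * (δ * δ)))⁻¹ h1
  rwa [smul_smul, inv_mul_cancel₀ ht, one_smul] at h3

end Pool.Agent.Helper70Sg
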