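import Pool.Agent.Helper70_sg.Sg2
import Pool.Agent.Helper70_ls.Symp

/-!
# Odd classes: the determinant line itself
-/

open CategoryTheory AlgebraicGeometry

universe u v

namespace Pool.Agent.Helper70Sg

open Pool.Agent.H914 Pool.Agent.H914.VarClass Pool.Agent.H914.VarClass.Obj
  Pool.Agent.H914.WeilCohomology Pool.Agent.Helper70Rk Pool.Agent.Helper70Ls

variable {k : Type u} [Field k] {𝒱 : VarClass k} {ops : CycleOps 𝒱}
  {W : WeilCohomology.{u, v} ops} {X Y Z : 𝒱.Obj}

/-- Pairs of a class on `X ^ (n + 1)` and an element of the exterior algebra of `H^i(X)` which are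
represented by the same combination of words. -/
noncomputable def RepV (X : 𝒱.Obj) (V : Submodule W.K (W.H X)) (n : ℕ) :
    Submodule W.K (W.H (pow X n) × ExteriorAlgebra W.K (V)) :=
  Submodule.span W.K (Set.range fun v : Fin (n + 1) → V =>
    (extFam W n (fun j => (v j : W.H X)), ExteriorAlgebra.ιMulti W.K (n + 1) v))

lemma RepV.zero {V : Submodule W.K (W.H X)} (z : V) :
    (show W.H (pow X 0) from (z : W.H X), ExteriorAlgebra.ι W.K z) ∈ RepV X V 0 := by
  refine Submodule.subset_span ⟨fun _ => z, ?_⟩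
  refine Prod.ext rfl ?_
  simp [ExteriorAlgebra.ιMulti_apply]

lemma RepV.succ {V : Submodule W.K (W.H X)} {n : ℕ} {t : W.H (pow X n)} {e : ExteriorAlgebra W.K (V)}
    (h : (t, e) ∈ RepV X V n) (z : V) :
    (show W.H (pow X (n + 1)) from ext t (z : W.H X), e * ExteriorAlgebra.ι W.K z) ∈
      RepV X V (n + 1) := by
  have key : ∀ p ∈ RepV X V n,
      (show W.H (pow X (n + 1)) from ext p.1 (z : W.H X), p.2 * ExteriorAlgebra.ι W.K z) ∈
        RepV X V (n + 1) := by
    intro p hp
    induction hp using Submodule.span_induction with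
    | mem p hp =>
      obtain ⟨v, rfl⟩ := hp
      refine Submodule.subset_span ⟨Fin.snoc (α := fun _ => V) v z, ?_⟩
      refine Prod.ext ?_ ?_
      · change W.map (fst (pow X n) X) (extFam W n fun j =>
          ((Fin.snoc (α := fun _ => V) v z j.castSucc : V) : W.H X)) *
          W.map (snd (pow X n) X) ((Fin.snoc (α := fun _ => V) v z
            (Fin.last (n + 1)) : V) : W.H X) = _
        simp only [Fin.snoc_castSucc, Fin.snoc_last]
        rfl
      · change ExteriorAlgebra.ιMulti W.K (n + 2) (Fin.snoc (α := fun _ => V) v z) =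
          ExteriorAlgebra.ιMulti W.K (n + 1) v * ExteriorAlgebra.ι W.K z
        rw [ExteriorAlgebra.ιMulti_apply, List.ofFn_succ_last, List.prod_append,
          List.prod_singleton, ExteriorAlgebra.ιMulti_apply]
        simp only [Fin.snoc_castSucc, Fin.snoc_last]
    | zero =>
      have : (show W.H (pow X (n + 1)) from ext (0 : W.H (pow X n)) (z : W.H X),
          (0 : ExteriorAlgebra W.K (V)) * ExteriorAlgebra.ι W.K z) = 0 :=
        Prod.ext (ext_zero_left _) (zero_mul _)
      exact this ▸ Submodule.zero_mem _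
    | add p q _ _ hp hq =>
      have := Submodule.add_mem _ hp hq
      refine Eq.subst (motive := fun r => r ∈ RepV X V (n + 1)) ?_ this
      refine Prod.ext ?_ ?_
      · change ext p.1 (z : W.H X) + ext q.1 (z : W.H X) = ext (p.1 + q.1) (z : W.H X)
        rw [ext, ext, ext, map_add, add_mul]
      · exact (add_mul _ _ _).symm
    | smul c p _ hp =>
      have := Submodule.smul_mem _ c hp
      refine Eq.subst (motive := fun r => r ∈ RepV X V (n + 1)) ?_ this
      refine Prod.ext ?_ ?_
      · exact (ext_smul_left c p.1 (z : W.H X)).symm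
      · exact (smul_mul_assoc _ _ _).symm
  exact key _ h

/-- Represented pairs and the antisymmetrisation. -/
lemma RepV.asym {i n : ℕ} {V : Submodule W.K (W.H X)} (hV : V ≤ pty W X i) {t : W.H (pow X n)} {e : ExteriorAlgebra W.K (V)}
    (h : (t, e) ∈ RepV X V n) : Helper70Ls.asym W X i n t =
      ExteriorAlgebra.liftAlternating (R := W.K)
        (Pi.single (M := fun m => (V) [⋀^Fin m]→ₗ[W.K] W.H (pow X n)) (n + 1)
          (detMV X V n)) e := by
  have key : ∀ p ∈ RepV X V n, Helper70Ls.asym W X i n p.1 =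
      ExteriorAlgebra.liftAlternating (R := W.K)
        (Pi.single (M := fun m => (V) [⋀^Fin m]→ₗ[W.K] W.H (pow X n)) (n + 1)
          (detMV X V n)) p.2 := by
    intro p hp
    induction hp using Submodule.span_induction with
    | mem p hp =>
      obtain ⟨v, rfl⟩ := hp
      rw [ExteriorAlgebra.liftAlternating_apply_ιMulti, Pi.single_eq_same, detMV_apply,
        asym_ext fun j => hV (v j).2]
    | zero => rw [Prod.fst_zero, Prod.snd_zero, map_zero, map_zero]
    | add p q _ _ hp hq => rw [Prod.fst_add, Prod.snd_add, map_add, map_add, hp, hq]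
    | smul c p _ hp => rw [Prod.smul_fst, Prod.smul_snd, map_smul, map_smul, hp]
  exact key _ h

/-- Too long words vanish. -/
lemma RepV.vanish {n N : ℕ} {V : Submodule W.K (W.H X)} (y : Module.Basis (Fin N) W.K (V)) (hN : N < n + 1)
    {t : W.H (pow X n)} {e : ExteriorAlgebra W.K (V)} (h : (t, e) ∈ RepV X V n) :
    e = 0 := by
  have key : ∀ p ∈ RepV X V n, p.2 = 0 := by
    intro p hp
    induction hp using Submodule.span_induction with
    | mem p hp =>
      obtain ⟨v, rfl⟩ := hp
      apply AlternatingMap.map_linearDependent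
      intro hv
      have h1 := hv.fintype_card_le_finrank
      rw [Module.finrank_eq_card_basis y, Fintype.card_fin, Fintype.card_fin] at h1
      omega
    | zero => rfl
    | add p q _ _ hp hq => rw [Prod.snd_add, hp, hq, add_zero]
    | smul c p _ hp => rw [Prod.smul_snd, hp, smul_zero]
  exact key _ h

/-- Words of maximal length. -/
lemma RepV.top {n : ℕ} {V : Submodule W.K (W.H X)} (y : Module.Basis (Fin (n + 1)) W.K (V))
    {t : W.H (pow X n)} {e : ExteriorAlgebra W.K (V)} (h : (t, e) ∈ RepV X V n) :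
    ∃ c : W.K, e = c • ExteriorAlgebra.ιMulti W.K (n + 1) y := by
  have h0 : ExteriorAlgebra.ιMulti W.K (n + 1) (M := V) =
      (LinearMap.toSpanSingleton W.K _
        (ExteriorAlgebra.ιMulti W.K (n + 1) y)).compAlternatingMap y.det := by
    apply Module.Basis.ext_alternating y
    intro v hv
    set σ : Equiv.Perm (Fin (n + 1)) :=
      Equiv.ofBijective v (Finite.injective_iff_bijective.1 hv) with hσ
    have e : (fun j => y (v j)) = (y : Fin (n + 1) → V) ∘ σ := rfl
    rw [e, AlternatingMap.map_perm, AlternatingMap.map_perm, LinearMap.compAlternatingMap_apply,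
      LinearMap.toSpanSingleton_apply, Module.Basis.det_self, one_smul]
  have key : ∀ p ∈ RepV X V n, ∃ c : W.K,
      p.2 = c • ExteriorAlgebra.ιMulti W.K (n + 1) y := by
    intro p hp
    induction hp using Submodule.span_induction with
    | mem p hp =>
      obtain ⟨v, rfl⟩ := hp
      refine ⟨y.det v, ?_⟩
      have h1 := congrArg (fun f : (V) [⋀^Fin (n + 1)]→ₗ[W.K]
        ExteriorAlgebra W.K (V) => f v) h0
      simpa only [LinearMap.compAlternatingMap_apply, LinearMap.toSpanSingleton_apply] using h1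
    | zero => exact ⟨0, (zero_smul _ _).symm⟩
    | add p q _ _ hp hq =>
      obtain ⟨c, hc⟩ := hp
      obtain ⟨d, hd⟩ := hq
      exact ⟨c + d, by rw [Prod.snd_add, hc, hd, add_smul]⟩
    | smul c p _ hp =>
      obtain ⟨d, hd⟩ := hp
      exact ⟨c * d, by rw [Prod.smul_snd, hd, mul_smul]⟩
  exact key _ h

/-- The powers of the inverse form. -/
lemma exists_repV (C : ClSys W) {N : ℕ} {V : Submodule W.K (W.H X)}
    (x y : Module.Basis (Fin N) W.K V)
    (h : ∑ b, ext (x b : W.H X) (y b : W.H X) ∈ C.S (X.prod X)) (m : ℕ) :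
    ∃ t ∈ C.S (pow X (2 * m + 1)), (t, om W.K x y ^ (m + 1)) ∈ RepV X V (2 * m + 1) := by
  induction m with
  | zero =>
    refine ⟨∑ b, ext (x b : W.H X) (y b : W.H X), h, ?_⟩
    have h1 := Submodule.sum_mem (RepV X V 1) (t := Finset.univ)
      (fun (b : Fin N) _ => RepV.succ (RepV.zero (x b)) (y b))
    rw [zero_add, pow_one]
    refine Eq.subst (motive := fun r => r ∈ RepV X V 1) ?_ h1
    refine Prod.ext ?_ ?_
    · rw [Prod.fst_sum]
    · rw [Prod.snd_sum, om]
  | succ m ih =>
    obtain ⟨t, ht, hr⟩ := ih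
    refine ⟨∑ b, ext (X := (pow X (2 * m + 1)).prod X) (ext t (x b : W.H X)) (y b : W.H X),
      ?_, ?_⟩
    · have h1 := C.mul (C.map (fst ((pow X (2 * m + 1)).prod X) X ≫
        fst (pow X (2 * m + 1)) X) ht)
        (C.map (Obj.lift (fst ((pow X (2 * m + 1)).prod X) X ≫ snd (pow X (2 * m + 1)) X)
          (snd ((pow X (2 * m + 1)).prod X) X)) h)
      rw [map_sum, Finset.mul_sum] at h1
      refine Eq.subst (motive := fun r : W.H (((pow X (2 * m + 1)).prod X).prod X) =>
        r ∈ C.S (((pow X (2 * m + 1)).prod X).prod X)) ?_ h1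
      refine Finset.sum_congr rfl fun b _ => ?_
      rw [ext, ext, ext, map_mul, map_mul, ← W.map_comp, ← W.map_comp, ← W.map_comp,
        ← W.map_comp, Obj.lift_fst, Obj.lift_snd, mul_assoc]
    · have h1 := Submodule.sum_mem (RepV X V (2 * m + 1 + 1 + 1)) (t := Finset.univ)
        (fun (b : Fin N) _ => RepV.succ (RepV.succ hr (x b)) (y b))
      refine Eq.subst (motive := fun r => r ∈ RepV X V (2 * m + 1 + 1 + 1)) ?_ h1
      refine Prod.ext ?_ ?_
      · rw [Prod.fst_sum]
        rfl
      · rw [Prod.snd_sum]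
        change ∑ b, om W.K x y ^ (m + 1) * ExteriorAlgebra.ι W.K (x b) *
          ExteriorAlgebra.ι W.K (y b) = om W.K x y ^ (m + 1 + 1)
        rw [pow_succ _ (m + 1)]
        nth_rewrite 3 [om]
        rw [Finset.mul_sum]
        exact Finset.sum_congr rfl fun b _ => mul_assoc _ _ _

/-- **The determinant line in odd degrees.** -/
theorem det_oddV (C : ClSys W) {i n : ℕ} {V : Submodule W.K (W.H X)} (hV : V ≤ pty W X i)
    (q : LinearMap.BilinForm W.K V)
    (halt : ∀ a b, q a b = -q b a) (x y : Module.Basis (Fin (n + 1)) W.K V)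
    (hxy : ∀ a b, q (x a) (y b) = if a = b then 1 else 0)
    (h : ∑ b, ext (x b : W.H X) (y b : W.H X) ∈ C.S (X.prod X)) :
    (∃ p, n + 1 = 2 * p) ∧ ∃ c : W.K, c ≠ 0 ∧
      c • (detClass W n fun j => (y j : W.H X)) ∈ C.S (pow X n) := by
  obtain ⟨m, hm, h0⟩ : ∃ m, n + 1 = 2 * m ∧ om W.K x y ^ m ≠ 0 := by
    apply exists_top q x y halt hxy (n + 1 + 1)
    obtain ⟨t, -, ht⟩ := exists_repV C x y h (n + 1)
    exact RepV.vanish y (by omega) ht
  refine ⟨⟨m, hm⟩, ?_⟩
  obtain ⟨l, rfl⟩ : ∃ l, m = l + 1 := Nat.exists_eq_succ_of_ne_zero (by omega)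
  obtain rfl : n = 2 * l + 1 := by omega
  obtain ⟨t, ht, hr⟩ := exists_repV C x y h l
  obtain ⟨c, hc⟩ := RepV.top y hr
  have hc0 : c ≠ 0 := by
    rintro rfl
    rw [zero_smul] at hc
    exact h0 hc
  have h1 := RepV.asym hV hr
  rw [hc, map_smul, ExteriorAlgebra.liftAlternating_apply_ιMulti, Pi.single_eq_same,
    detMV_apply] at h1
  have h2 := asym_cl C (i := i) ht
  rw [h1] at h2
  exact ⟨c, hc0, h2⟩

end Pool.Agent.Helper70Sg
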