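import Pool.Agent.Helper70_sg.Sg3
import Pool.Agent.Helper70_ls.Det10

/-!
# The degree of the determinant line
-/

open CategoryTheory AlgebraicGeometry

universe u v

namespace Pool.Agent.Helper70Sg

open Pool.Agent.H914 Pool.Agent.H914.VarClass Pool.Agent.H914.VarClass.Obj
  Pool.Agent.H914.WeilCohomology Pool.Agent.Helper70Rk Pool.Agent.Helper70Ls

variable {k : Type u} [Field k] {𝒱 : VarClass k} {ops : CycleOps 𝒱}
  {W : WeilCohomology.{u, v} ops} {X Y Z : 𝒱.Obj}

/-- The operator acting as `2 ^ j` in degree `j`. -/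
noncomputable def sg (W : WeilCohomology.{u, v} ops) (Z : 𝒱.Obj) : Module.End W.K (W.H Z) :=
  scal (W.isInternal Z) (fun j => (2 : W.K) ^ j)

lemma sg_apply {j : ℕ} {a : W.H Z} (ha : a ∈ W.gr Z j) : sg W Z a = (2 : W.K) ^ j • a :=
  scal_apply _ _ ha

lemma sg_mul (a b : W.H Z) : sg W Z (a * b) = sg W Z a * sg W Z b := by
  refine gr_induction (W.isInternal Z)
    (p := fun a => sg W Z (a * b) = sg W Z a * sg W Z b) ?_ ?_ a
  · intro i a ha
    refine gr_induction (W.isInternal Z)
      (p := fun b => sg W Z (a * b) = sg W Z a * sg W Z b) ?_ ?_ b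
    · intro j b hb
      rw [sg_apply (W.mul_mem ha hb), sg_apply ha, sg_apply hb, smul_mul_smul_comm, pow_add]
    · intro b c hb hc
      rw [mul_add, map_add, map_add, mul_add, hb, hc]
  · intro a c ha hc
    rw [add_mul, map_add, map_add, add_mul, ha, hc]

lemma sg_map (f : X ⟶ Y) (a : W.H Y) : sg W X (W.map f a) = W.map f (sg W Y a) := by
  refine gr_induction (W.isInternal Y)
    (p := fun a => sg W X (W.map f a) = W.map f (sg W Y a)) ?_ ?_ a
  · intro i a ha
    rw [sg_apply (W.map_mem f ha), sg_apply ha, map_smul]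
  · intro a b ha hb
    rw [map_add, map_add, map_add, map_add, ha, hb]

lemma sg_ext (n : ℕ) (v : Fin (n + 1) → W.H X) :
    sg W (pow X n) (extFam W n v) = extFam W n fun j => sg W X (v j) := by
  induction n with
  | zero => rfl
  | succ n ih =>
    change sg W ((pow X n).prod X) (W.map (fst (pow X n) X) (extFam W n fun j => v j.castSucc) *
      W.map (snd (pow X n) X) (v (Fin.last (n + 1)))) = _
    rw [sg_mul, sg_map, sg_map, ih]
    rfl

lemma sg_det (n : ℕ) (v : Fin (n + 1) → W.H X) :
    sg W (pow X n) (detClass W n v) = detClass W n fun j => sg W X (v j) := by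
  rw [detClass, map_sum, detClass]
  refine Finset.sum_congr rfl fun σ _ => ?_
  rw [map_smul, sg_ext]

lemma sg_pty {e : ℕ} {a : W.H Z} (ha : a ∈ pty W Z e) : sg W Z a ∈ pty W Z e := by
  refine pty_ind (p := fun a => sg W Z a ∈ pty W Z e) ha ?_ ?_ ?_
  · rw [map_zero]; exact Submodule.zero_mem _
  · intro j hj a ha
    rw [sg_apply ha]
    exact Submodule.smul_mem _ _ (gr_le_pty hj ha)
  · intro a b h1 h2
    rw [map_add]
    exact Submodule.add_mem _ h1 h2

/-- Families in the space. -/
lemma det_smulV {V : Submodule W.K (W.H X)} {n : ℕ} (b : Module.Basis (Fin (n + 1)) W.K V)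
    (c : Fin (n + 1) → V) : (detClass W n fun j => (c j : W.H X)) =
      b.det c • detClass W n fun j => (b j : W.H X) := by
  have h1 : detMV X V n =
      (LinearMap.toSpanSingleton W.K _ (detMV X V n b)).compAlternatingMap b.det := by
    apply Module.Basis.ext_alternating b
    intro v hv
    set σ : Equiv.Perm (Fin (n + 1)) :=
      Equiv.ofBijective v (Finite.injective_iff_bijective.1 hv) with hσ
    have e : (fun j => b (v j)) = (b : Fin (n + 1) → V) ∘ σ := rfl
    rw [e, AlternatingMap.map_perm, AlternatingMap.map_perm, LinearMap.compAlternatingMap_apply,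
      LinearMap.toSpanSingleton_apply, Module.Basis.det_self, one_smul]
  have h2 := congrArg (fun f : V [⋀^Fin (n + 1)]→ₗ[W.K] (W.H (pow X n)) => f c) h1
  simp only [LinearMap.compAlternatingMap_apply, LinearMap.toSpanSingleton_apply,
    detMV_apply] at h2
  exact h2

/-- Eigenvectors of the scaling are homogeneous. -/
lemma hom_of_sg {δ : W.H Z} {r : W.K} (h : sg W Z δ = r • δ) (h0 : δ ≠ 0) :
    ∃ e, δ ∈ W.gr Z e := by
  have hN : ∀ i, 2 * Z.dim + 1 ≤ i → W.gr Z i = ⊥ := fun i hi => W.gr_eq_bot Z i (by omega)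
  have hsum : ∑ i ∈ Finset.range (2 * Z.dim + 1), proj (W.isInternal Z) i δ = δ := by
    have := congrArg (fun T : Module.End W.K (W.H Z) => T δ) (sum_proj (W.isInternal Z) hN)
    simpa only [LinearMap.sum_apply, Module.End.one_apply] using this
  have hps : ∀ (j : ℕ) (a : W.H Z), proj (W.isInternal Z) j (sg W Z a) =
      (2 : W.K) ^ j • proj (W.isInternal Z) j a := by
    intro j a
    refine gr_induction (W.isInternal Z) (p := fun a => proj (W.isInternal Z) j (sg W Z a) =
      (2 : W.K) ^ j • proj (W.isInternal Z) j a) ?_ ?_ a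
    · intro i a ha
      rw [sg_apply ha, map_smul]
      by_cases hij : i = j
      · subst hij; rfl
      · rw [proj_ne _ ha hij, smul_zero, smul_zero]
    · intro a b ha hb
      rw [map_add, map_add, map_add, smul_add, ha, hb]
  obtain ⟨e, he⟩ : ∃ e, proj (W.isInternal Z) e δ ≠ 0 := by
    by_contra hcon
    push Not at hcon
    rw [Finset.sum_eq_zero fun i _ => hcon i] at hsum
    exact h0 hsum.symm
  have key : ∀ j, ((2 : W.K) ^ j - r) • proj (W.isInternal Z) j δ = 0 := by
    intro j
    rw [sub_smul, ← hps, h, map_smul, sub_self]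
  have hr : (2 : W.K) ^ e = r := by
    rw [← sub_eq_zero]
    exact (smul_eq_zero.1 (key e)).resolve_right he
  have hne : ∀ j, j ≠ e → proj (W.isInternal Z) j δ = 0 := by
    intro j hj
    refine (smul_eq_zero.1 (key j)).resolve_left ?_
    rw [← hr, sub_eq_zero]
    intro h1
    apply hj
    have h2 : ((2 ^ j : ℕ) : W.K) = ((2 ^ e : ℕ) : W.K) := by
      push_cast
      exact h1
    exact Nat.pow_right_injective le_rfl (Nat.cast_injective h2)
  refine ⟨e, ?_⟩
  rw [← hsum]
  refine Submodule.sum_mem _ fun j _ => ?_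
  by_cases hj : j = e
  · subst hj
    exact proj_mem _ _ _
  · rw [hne j hj]
    exact Submodule.zero_mem _

/-- The degree of the determinant line. -/
lemma det_homog {V : Submodule W.K (W.H X)} (hσ : ∀ a ∈ V, sg W X a ∈ V) {n : ℕ}
    (y : Module.Basis (Fin (n + 1)) W.K V)
    (ht : W.tr (pow X n) ((detClass W n fun j => (y j : W.H X)) *
      detClass W n fun j => (y j : W.H X)) ≠ 0) :
    (detClass W n fun j => (y j : W.H X)) ∈ W.gr (pow X n) (X.dim * (n + 1)) := by
  set δ := detClass W n fun j => (y j : W.H X) with hδ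
  have h0 : δ ≠ 0 := by
    intro h
    rw [h, mul_zero, map_zero] at ht
    exact ht rfl
  have h1 : sg W (pow X n) δ = y.det (fun j => (⟨sg W X (y j), hσ _ (y j).2⟩ : V)) • δ := by
    rw [hδ, sg_det, ← det_smulV y]
  obtain ⟨e, he⟩ := hom_of_sg h1 h0
  have h2 : e + e = 2 * (pow X n).dim := by
    by_contra hcon
    exact ht (W.tr_eq_zero (W.mul_mem he he) hcon)
  rw [dim_pow] at h2
  rwa [show X.dim * (n + 1) = e by omega]

end Pool.Agent.Helper70Sg
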