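import Pool.Agent.Helper70_ls.DetDefs
import Pool.Agent.H447R3.SpDefs

/-!
# Determinant lines and the sign conjecture: definitions
-/

open CategoryTheory AlgebraicGeometry

universe u v

namespace Pool.Agent.Helper70Sg

open Pool.Agent.H914 Pool.Agent.H914.VarClass Pool.Agent.H914.VarClass.Obj
  Pool.Agent.H914.WeilCohomology Pool.Agent.Helper70Ls

variable {k : Type u} [Field k] {𝒱 : VarClass k} {ops : CycleOps 𝒱}

/-- The even cohomology of `X`, the sum of the `H^j(X)` with `j` even. -/
noncomputable def evenPart (W : WeilCohomology.{u, v} ops) (X : 𝒱.Obj) : Submodule W.K (W.H X) :=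
  ⨆ j : {j : ℕ // Even j}, W.gr X j

/-- The odd cohomology of `X`, the sum of the `H^j(X)` with `j` odd. -/
noncomputable def oddPart (W : WeilCohomology.{u, v} ops) (X : 𝒱.Obj) : Submodule W.K (W.H X) :=
  ⨆ j : {j : ℕ // Odd j}, W.gr X j

/-- The family `v` is a basis of the subspace `V` of `H(X)`. -/
def IsBasisOfSub (W : WeilCohomology.{u, v} ops) (X : 𝒱.Obj) (V : Submodule W.K (W.H X)) (n : ℕ)
    (v : Fin (n + 1) → W.H X) : Prop :=
  LinearIndependent W.K v ∧ Submodule.span W.K (Set.range v) = V

/-- The class `δ ⊠ δ ⊠ ... ⊠ δ` (with `m + 1` factors) on `(X ^ (n + 1)) ^ (m + 1)`, where `δ` is the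
antisymmetrised external product of the family `v`. If `v` is a basis of `V`, it generates the
`(m + 1)`-st tensor power of the line `det V`. -/
noncomputable def linePower (W : WeilCohomology.{u, v} ops) {X : 𝒱.Obj} (n m : ℕ)
    (v : Fin (n + 1) → W.H X) : W.H (pow (pow X n) m) :=
  extFam W m fun _ => detClass W n v

/-- The number `dim X (n + 1) (m + 1)` is even, equal to `2 p`, and `linePower W n m v` is a linear
combination, with coefficients in the coefficient field, of classes of cycles of codimension `p`. -/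
def PowerMid (W : WeilCohomology.{u, v} ops) (X : 𝒱.Obj) (n m : ℕ)
    (v : Fin (n + 1) → W.H X) : Prop :=
  ∃ p : ℕ, X.dim * (n + 1) * (m + 1) = 2 * p ∧
    linePower W n m v ∈ spanCycles W (pow (pow X n) m) p

/-- The number `dim X (n + 1) (m + 1)` is even, equal to `2 p`, and a nonzero multiple of
`linePower W n m v` is the class of a cycle of codimension `p` with rational coefficients. -/
def PowerRational (W : WeilCohomology.{u, v} ops) (X : 𝒱.Obj) (n m : ℕ)
    (v : Fin (n + 1) → W.H X) : Prop :=
  ∃ p : ℕ, X.dim * (n + 1) * (m + 1) = 2 * p ∧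
    ∃ (z : (pow (pow X n) m).Cycles) (c : W.K), (pow (pow X n) m).IsCyc p z ∧ c ≠ 0 ∧
      W.cl (pow (pow X n) m) z = c • linePower W n m v

/-- The `(m + 1)`-st tensor power of the line `det V` is spanned by a linear combination, with
coefficients in the coefficient field, of classes of cycles of the middle codimension. -/
def LineAlgebraicMid (W : WeilCohomology.{u, v} ops) (X : 𝒱.Obj) (V : Submodule W.K (W.H X))
    (m : ℕ) : Prop :=
  ∀ (n : ℕ) (v : Fin (n + 1) → W.H X), IsBasisOfSub W X V n v → PowerMid W X n m v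

/-- The `(m + 1)`-st tensor power of the line `det V` is spanned by the class of one cycle of the
middle codimension, with rational coefficients. -/
def LineRational (W : WeilCohomology.{u, v} ops) (X : 𝒱.Obj) (V : Submodule W.K (W.H X))
    (m : ℕ) : Prop :=
  ∀ (n : ℕ) (v : Fin (n + 1) → W.H X), IsBasisOfSub W X V n v → PowerRational W X n m v

/-- The span of the classes of all cycles on `Z`, with coefficients in the coefficient field. -/
noncomputable def cycleSpan (W : WeilCohomology.{u, v} ops) (Z : 𝒱.Obj) : Submodule W.K (W.H Z) :=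
  Submodule.span W.K {c | ∃ (j : ℕ) (z : Z.Cycles), Z.IsCyc j z ∧ W.cl Z z = c}

/-- `linePower W n m v` is a linear combination of classes of cycles, of any codimensions. -/
def PowerAlgebraic (W : WeilCohomology.{u, v} ops) (X : 𝒱.Obj) (n m : ℕ)
    (v : Fin (n + 1) → W.H X) : Prop :=
  linePower W n m v ∈ cycleSpan W (pow (pow X n) m)

/-- The members of the family `x` belong to `V`. -/
def FamIn (W : WeilCohomology.{u, v} ops) (X : 𝒱.Obj) (V : Submodule W.K (W.H X)) (n : ℕ)
    (x : Fin (n + 1) → W.H X) : Prop := ∀ b, x b ∈ V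

/-- The members of the families `x` and `y` are all even classes, or all odd classes. -/
def SameParity (W : WeilCohomology.{u, v} ops) (X : 𝒱.Obj) (n : ℕ)
    (x y : Fin (n + 1) → W.H X) : Prop :=
  (FamIn W X (evenPart W X) n x ∧ FamIn W X (evenPart W X) n y) ∨
    (FamIn W X (oddPart W X) n x ∧ FamIn W X (oddPart W X) n y)

/-- The Poincare pairing. -/
noncomputable def pp (W : WeilCohomology.{u, v} ops) (X : 𝒱.Obj) (a b : W.H X) : W.K :=
  W.tr X (a * b)

/-- The families `x` and `y` are dual to each other for the Poincare pairing. -/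
def DualFamilies (W : WeilCohomology.{u, v} ops) (X : 𝒱.Obj) (n : ℕ)
    (x y : Fin (n + 1) → W.H X) : Prop :=
  ∀ a b, pp W X (x a) (y b) = if a = b then 1 else 0

/-- The families `x` and `y` span the same subspace of `H(X)`. -/
def SameSpan (W : WeilCohomology.{u, v} ops) (X : 𝒱.Obj) (n : ℕ)
    (x y : Fin (n + 1) → W.H X) : Prop :=
  Submodule.span W.K (Set.range x) = Submodule.span W.K (Set.range y)

/-- The class `∑ tr(x_b c) y_b`. For dual families `c ↦ ∑ tr(x_b c) y_b` is the projector onto the span
of `y` along the orthogonal complement of `x` for the Poincare pairing. -/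
noncomputable def dualSum (W : WeilCohomology.{u, v} ops) (X : 𝒱.Obj) (n : ℕ)
    (x y : Fin (n + 1) → W.H X) (c : W.H X) : W.H X :=
  ∑ b, pp W X (x b) c • y b

/-- The operator `c ↦ ∑ tr(x_b c) y_b` is induced by a linear combination of algebraic cycles on
`X × X`. -/
def ProjAlgebraic (W : WeilCohomology.{u, v} ops) (X : 𝒱.Obj) (n : ℕ)
    (x y : Fin (n + 1) → W.H X) : Prop :=
  ∃ γ ∈ cycleSpan W (X.prod X), ∀ c, W.corr γ c = dualSum W X n x y c

/-- The class `δ_x ⊠ δ_y` on `X ^ (n + 1) × X ^ (n + 1)` is a linear combination of classes of cycles,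
where `δ_x` and `δ_y` are the antisymmetrised external products of `x` and `y`. -/
def PairAlgebraic (W : WeilCohomology.{u, v} ops) (X : 𝒱.Obj) (n : ℕ)
    (x y : Fin (n + 1) → W.H X) : Prop :=
  extFam W 1 ![detClass W n x, detClass W n y] ∈ cycleSpan W (pow (pow X n) 1)

end Pool.Agent.Helper70Sg
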