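import Pool.Agent.Helper70_sg.Sg4
import Pool.Agent.Helper70_sg.SgDefs

/-!
# The criterion for an orthogonal projector
-/

open CategoryTheory AlgebraicGeometry

universe u v

namespace Pool.Agent.Helper70Sg

open Pool.Agent.H914 Pool.Agent.H914.VarClass Pool.Agent.H914.VarClass.Obj
  Pool.Agent.H914.WeilCohomology Pool.Agent.Helper70Rk Pool.Agent.Helper70Ls

variable {k : Type u} [Field k] {𝒱 : VarClass k} {ops : CycleOps 𝒱}
  {W : WeilCohomology.{u, v} ops} {X Y Z : 𝒱.Obj}

/-- The restriction of the Poincare pairing to the subspace `V` is nondegenerate. -/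
def NondegOn (W : WeilCohomology.{u, v} ops) (X : 𝒱.Obj) (V : Submodule W.K (W.H X)) : Prop :=
  ∀ a ∈ V, (∀ b ∈ V, W.tr X (a * b) = 0) → a = 0

/-- The operator `e` is the identity on `V` and vanishes on the orthogonal complement of `V`. -/
def IsOrthProj (W : WeilCohomology.{u, v} ops) (X : 𝒱.Obj) (V : Submodule W.K (W.H X))
    (e : W.H X →ₗ[W.K] W.H X) : Prop :=
  (∀ a ∈ V, e a = a) ∧ ∀ c, (∀ b ∈ V, W.tr X (b * c) = 0) → e c = 0

/-- The orthogonal projector onto `V` is a linear combination of algebraic correspondences. -/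
def OrthProjAlgebraic (W : WeilCohomology.{u, v} ops) (X : 𝒱.Obj) (V : Submodule W.K (W.H X)) :
    Prop := ∃ e ∈ AOp W X X, IsOrthProj W X V e

/-- The powers of the line are algebraic. -/
def LineAlgebraic (W : WeilCohomology.{u, v} ops) (X : 𝒱.Obj) (V : Submodule W.K (W.H X))
    (m : ℕ) : Prop :=
  ∀ (n : ℕ) (v : Fin (n + 1) → W.H X), IsBasisOfSub W X V n v →
    linePower W n m v ∈ Alg W (pow (pow X n) m)

/-- The operator `c ↦ ∑ tr(x_b c) y_b`. -/
noncomputable def pj {N : ℕ} (x y : Fin N → W.H X) : Module.End W.K (W.H X) :=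
  ∑ b, rk1 (x b) (y b)

lemma pj_apply {N : ℕ} (x y : Fin N → W.H X) (c : W.H X) :
    pj x y c = ∑ b, W.tr X (x b * c) • y b := by
  rw [pj, LinearMap.sum_apply]
  rfl

lemma sq_mod (i : ℕ) : i * i % 2 = i % 2 := by
  rcases Nat.mod_two_eq_zero_or_one i with h | h <;> simp [Nat.mul_mod, h]

/-- The operator induced by the form. -/
lemma corr_pj {i N : ℕ} {x y : Fin N → W.H X} (hx : ∀ b, x b ∈ pty W X i)
    (hy : ∀ b, y b ∈ pty W X i) :
    W.corr (∑ b, ext (x b) (y b)) = (-1 : W.K) ^ i • pj x y := by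
  apply gr_ext (W.isInternal X)
  intro j c hc
  rw [LinearMap.smul_apply, pj_apply, corr_apply, Finset.sum_mul, map_sum, Finset.smul_sum]
  refine Finset.sum_congr rfl fun b _ => ?_
  have h1 : W.push (snd X X) (ext (x b) (y b) * W.map (fst X X) c) =
      ((-1) ^ (i * j) * W.tr X (x b * c)) • y b := by
    rw [ext, mul_assoc, pty_comm (pty_map (snd X X) (hy b)) (gr_le_pty rfl (W.map_mem (fst X X) hc)),
      mul_smul_comm, map_smul, ← mul_assoc, ← map_mul, W.push_snd, smul_smul]
  rw [h1, smul_smul]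
  congr 1
  by_cases hij : i % 2 = j % 2
  · rw [neg_pow_congr (a := i * j) (b := i) (by rw [Nat.mul_mod, ← hij, ← Nat.mul_mod, sq_mod])]
  · rw [tr_pty hij (hx b) (gr_le_pty rfl hc), mul_zero, mul_zero]

lemma corr_inj_iff {c d : W.H (X.prod Y)} : W.corr c = W.corr d ↔ c = d := by
  constructor
  · intro h
    rw [← sub_eq_zero]
    apply corr_inj'
    have h7 : W.corr (c - d) + W.corr d = W.corr c := by rw [← W.corr_add, sub_add_cancel]
    rw [h] at h7
    exact add_eq_right.1 h7
  · rintro rfl; rfl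

/-- The form is a combination of classes of cycles if and only if the operator is a combination of
correspondences. -/
lemma form_iff_aop {i N : ℕ} {x y : Fin N → W.H X} (hx : ∀ b, x b ∈ pty W X i)
    (hy : ∀ b, y b ∈ pty W X i) :
    ∑ b, ext (x b) (y b) ∈ Alg W (X.prod X) ↔ pj x y ∈ AOp W X X := by
  have h := corr_pj hx hy
  constructor
  · intro h1
    have h2 : (-1 : W.K) ^ i • pj x y ∈ AOp W X X := by
      rw [← h]
      exact mem_aop.2 ⟨_, h1, rfl⟩
    have h3 := Submodule.smul_mem _ ((-1 : W.K) ^ i) h2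
    rwa [smul_smul, ← pow_add, ← two_mul, pow_mul, neg_one_sq, one_pow, one_smul] at h3
  · intro h1
    obtain ⟨c, hc, h2⟩ := mem_aop.1 h1
    have h3 : ∑ b, ext (x b) (y b) = (-1 : W.K) ^ i • c := by
      apply corr_inj_iff.1
      rw [h, W.corr_smul, h2]
    rw [h3]
    exact Submodule.smul_mem _ _ hc

/-- **The criterion for the projector attached to two dual families.** -/
theorem pj_iff {i n : ℕ} {x y : Fin (n + 1) → W.H X} (hx : ∀ b, x b ∈ pty W X i)
    (hy : ∀ b, y b ∈ pty W X i) (hxy : ∀ a b, W.tr X (x a * y b) = if a = b then 1 else 0) :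
    pj x y ∈ AOp W X X ↔
      ext (detClass W n x) (detClass W n y) ∈ Alg W ((pow X n).prod (pow X n)) := by
  rw [← form_iff_aop hx hy]
  constructor
  · intro h
    exact det_cl (algSys W) hx hy h
  · intro h
    exact form_algP (ρ := (1 : W.H X)) (p := 0) (gr_le_pty rfl (W.one_mem X)) Alg.one hx hy
      (fun a b => by rw [one_mul, hxy]) h

/-- The trace form. -/
noncomputable def trForm (V : Submodule W.K (W.H X)) : LinearMap.BilinForm W.K V :=
  LinearMap.mk₂ W.K (fun a b => W.tr X ((a : W.H X) * b))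
    (fun a b c => by rw [Submodule.coe_add, add_mul, map_add])
    (fun r a b => by rw [Submodule.coe_smul, smul_mul_assoc, map_smul])
    (fun a b c => by rw [Submodule.coe_add, mul_add, map_add])
    (fun r a b => by rw [Submodule.coe_smul, mul_smul_comm, map_smul])

lemma trForm_apply (V : Submodule W.K (W.H X)) (a b : V) :
    trForm V a b = W.tr X ((a : W.H X) * b) := rfl

lemma trForm_flip {V : Submodule W.K (W.H X)} {i : ℕ} (hV : V ≤ pty W X i) (a b : V) :
    trForm V a b = (-1) ^ i * trForm V b a := by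
  rw [trForm_apply, trForm_apply, pty_comm (hV a.2) (hV b.2), map_smul, smul_eq_mul,
    neg_pow_congr (sq_mod i)]

lemma trForm_nondeg {V : Submodule W.K (W.H X)} {i : ℕ} (hV : V ≤ pty W X i)
    (hnd : NondegOn W X V) : (trForm V).Nondegenerate := by
  have h1 : ∀ a : V, (∀ b, trForm V a b = 0) → a = 0 := fun a h =>
    Subtype.ext (hnd a a.2 fun b hb => h ⟨b, hb⟩)
  refine ⟨h1, fun a h => h1 a fun b => ?_⟩
  rw [trForm_flip hV, h b, mul_zero]

lemma exists_dualV {V : Submodule W.K (W.H X)} {i : ℕ} (hV : V ≤ pty W X i)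
    (hnd : NondegOn W X V) {n : ℕ} (y : Module.Basis (Fin (n + 1)) W.K V) :
    ∃ x : Module.Basis (Fin (n + 1)) W.K V,
      ∀ a b, W.tr X ((x a : W.H X) * (y b : W.H X)) = if a = b then 1 else 0 := by
  refine ⟨LinearMap.BilinForm.dualBasis _ (trForm_nondeg hV hnd) y, fun a b => ?_⟩
  have h := LinearMap.BilinForm.apply_dualBasis_left (B := trForm V) (trForm_nondeg hV hnd) y a b
  rw [trForm_apply] at h
  rw [h]
  simp only [eq_comm]

/-- The orthogonal projector. -/
lemma isOrthProj_pj {V : Submodule W.K (W.H X)} {n : ℕ} (x y : Module.Basis (Fin (n + 1)) W.K V)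
    (hxy : ∀ a b, W.tr X ((x a : W.H X) * (y b : W.H X)) = if a = b then 1 else 0) :
    IsOrthProj W X V (pj (fun b => (x b : W.H X)) (fun b => (y b : W.H X))) := by
  constructor
  · intro a ha
    rw [pj_apply]
    have h1 : ∀ b, W.tr X ((x b : W.H X) * a) = y.repr ⟨a, ha⟩ b := by
      intro b
      have h2 := congrArg (fun z : V => W.tr X ((x b : W.H X) * (z : W.H X)))
        (y.sum_repr ⟨a, ha⟩)
      simp only [Submodule.coe_sum, Submodule.coe_smul, Finset.mul_sum, map_sum, mul_smul_comm,
        map_smul, hxy, smul_eq_mul] at h2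
      rw [← h2, Finset.sum_eq_single b]
      · rw [if_pos rfl, mul_one]
      · intro c _ hc
        rw [if_neg (Ne.symm hc), mul_zero]
      · intro h
        exact absurd (Finset.mem_univ b) h
    rw [Finset.sum_congr rfl fun b _ => by rw [h1 b]]
    have h3 := congrArg (fun z : V => (z : W.H X)) (y.sum_repr ⟨a, ha⟩)
    simp only [Submodule.coe_sum, Submodule.coe_smul] at h3
    exact h3
  · intro c hc
    rw [pj_apply]
    exact Finset.sum_eq_zero fun b _ => by rw [hc _ (x b).2, zero_smul]

/-- The orthogonal projector is unique. -/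
lemma isOrthProj_unique {V : Submodule W.K (W.H X)} {n : ℕ}
    (x y : Module.Basis (Fin (n + 1)) W.K V)
    (hxy : ∀ a b, W.tr X ((x a : W.H X) * (y b : W.H X)) = if a = b then 1 else 0)
    {e : W.H X →ₗ[W.K] W.H X} (he : IsOrthProj W X V e) :
    e = pj (fun b => (x b : W.H X)) (fun b => (y b : W.H X)) := by
  set p := pj (fun b => (x b : W.H X)) (fun b => (y b : W.H X)) with hp
  have h := isOrthProj_pj x y hxy
  apply LinearMap.ext
  intro c
  have hpc : p c ∈ V := by
    rw [hp, pj_apply]
    exact Submodule.sum_mem _ fun b _ => Submodule.smul_mem _ _ (y b).2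
  have h1 : ∀ a b, W.tr X ((x a : W.H X) * (y b : W.H X)) = if a = b then 1 else 0 := hxy
  have h2 : ∀ b, W.tr X ((x b : W.H X) * (c - p c)) = 0 := by
    intro b
    rw [mul_sub, map_sub, hp, pj_apply, Finset.mul_sum, map_sum, Finset.sum_eq_single b]
    · rw [mul_smul_comm, map_smul, hxy, if_pos rfl, smul_eq_mul, mul_one, sub_self]
    · intro a _ ha
      rw [mul_smul_comm, map_smul, hxy, if_neg (Ne.symm ha), smul_zero]
    · intro h
      exact absurd (Finset.mem_univ b) h
  have h3 : ∀ b ∈ V, W.tr X (b * (c - p c)) = 0 := by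
    intro b hb
    have h4 := congrArg (fun z : V => W.tr X ((z : W.H X) * (c - p c))) (x.sum_repr ⟨b, hb⟩)
    simp only [Submodule.coe_sum, Submodule.coe_smul, Finset.sum_mul, map_sum, smul_mul_assoc,
      map_smul, h2, smul_zero, Finset.sum_const_zero] at h4
    exact h4.symm
  have h5 := he.2 _ h3
  rw [map_sub, he.1 _ hpc, sub_eq_zero] at h5
  exact h5

/-- A basis as a basis of the subspace. -/
lemma exists_basisV {V : Submodule W.K (W.H X)} {n : ℕ} {v : Fin (n + 1) → W.H X}
    (h : LinearIndependent W.K v) (h' : Submodule.span W.K (Set.range v) = V) :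
    ∃ y : Module.Basis (Fin (n + 1)) W.K V, ∀ j, (y j : W.H X) = v j :=
  ⟨(Module.Basis.span h).map (LinearEquiv.ofEq _ _ h'), fun j => by
    rw [Module.Basis.map_apply, LinearEquiv.coe_ofEq_apply, Module.Basis.span_apply]⟩

lemma isBasisV {V : Submodule W.K (W.H X)} {n : ℕ} (y : Module.Basis (Fin (n + 1)) W.K V) :
    LinearIndependent W.K (fun j => (y j : W.H X)) ∧
      Submodule.span W.K (Set.range fun j => (y j : W.H X)) = V := by
  constructor
  · exact y.linearIndependent.map' V.subtype (Submodule.ker_subtype _)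
  · have h : Set.range (fun j => (y j : W.H X)) = V.subtype '' Set.range y := by
      rw [← Set.range_comp]
      rfl
    rw [h, ← Submodule.map_span, y.span_eq, Submodule.map_top, Submodule.range_subtype]

end Pool.Agent.Helper70Sg
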