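import Pool.Agent.Helper70_sg.Sg5

/-!
# The criterion for an orthogonal projector: powers of the determinant line
-/

open CategoryTheory AlgebraicGeometry

universe u v

namespace Pool.Agent.Helper70Sg

open Pool.Agent.H914 Pool.Agent.H914.VarClass Pool.Agent.H914.VarClass.Obj
  Pool.Agent.H914.WeilCohomology Pool.Agent.Helper70Rk Pool.Agent.Helper70Ls

variable {k : Type u} [Field k] {𝒱 : VarClass k} {ops : CycleOps 𝒱}
  {W : WeilCohomology.{u, v} ops} {X Y Z : 𝒱.Obj}

/-- The determinant lines of dual families pair nontrivially. -/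
lemma tr_det_dual {i' i n : ℕ} {x y : Fin (n + 1) → W.H X} (hx : ∀ b, x b ∈ pty W X i')
    (hy : ∀ b, y b ∈ pty W X i) (hxy : ∀ a b, W.tr X (x a * y b) = if a = b then 1 else 0) :
    W.tr (pow X n) (detClass W n x * detClass W n y) ≠ 0 := by
  have h1 := tr_detP (W := W) (ρ := (1 : W.H X)) (p := 0) (gr_le_pty rfl (W.one_mem X)) hx hy
    (fun a b => by rw [one_mul, hxy])
  rwa [xpow_one, one_mul] at h1

section

variable {V : Submodule W.K (W.H X)} {i : ℕ} (hV : V ≤ pty W X i) (hnd : NondegOn W X V)

include hV hnd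

lemma tr_det_self {n : ℕ} (y : Module.Basis (Fin (n + 1)) W.K V) :
    W.tr (pow X n) ((detClass W n fun j => (y j : W.H X)) *
      detClass W n fun j => (y j : W.H X)) ≠ 0 := by
  obtain ⟨x, hxy⟩ := exists_dualV hV hnd y
  have h1 := tr_det_dual (W := W) (fun b => hV (x b).2) (fun b => hV (y b).2) hxy
  obtain ⟨r, -, hr⟩ := det_changeV (W := W) y x
  rw [hr, smul_mul_assoc, map_smul, smul_eq_mul] at h1
  exact right_ne_zero_of_mul h1

/-- The square of the determinant line is algebraic if some positive power is. -/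
lemma square_of_powerV {n : ℕ} (y : Module.Basis (Fin (n + 1)) W.K V) (m : ℕ)
    (h : extFam W m (fun _ => detClass W n fun j => (y j : W.H X)) ∈ Alg W (pow (pow X n) m)) :
    ext (detClass W n fun j => (y j : W.H X)) (detClass W n fun j => (y j : W.H X)) ∈
      Alg W ((pow X n).prod (pow X n)) := by
  have ht := tr_det_self hV hnd y
  set δ := detClass W n fun j => (y j : W.H X) with hδdef
  have hδ : δ ∈ pty W (pow X n) (i * (n + 1)) := det_pty n fun b => hV (y b).2
  have ht' : W.tr (pow X n) (1 * (δ * δ)) ≠ 0 := by rwa [one_mul]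
  induction m using Nat.strong_induction_on with
  | _ m ih =>
    match m, ih, h with
    | 0, _, h => exact Alg.mul (Alg.map _ h) (Alg.map _ h)
    | 1, _, h => exact h
    | m + 2, ih, h =>
      exact ih m (by omega) (contract_twoP Alg.one hδ ht' h)

/-- The orthogonal projector and the square of the determinant line. -/
theorem orth_iff_square : OrthProjAlgebraic W X V ↔ LineAlgebraic W X V 1 := by
  constructor
  · rintro ⟨e, he, hee⟩ n v hv
    obtain ⟨y, hy⟩ := exists_basisV hv.1 hv.2
    obtain rfl : (fun j => (y j : W.H X)) = v := funext hy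
    obtain ⟨x, hxy⟩ := exists_dualV hV hnd y
    rw [isOrthProj_unique x y hxy hee] at he
    have h1 := (pj_iff (fun b => hV (x b).2) (fun b => hV (y b).2) hxy).1 he
    obtain ⟨r, hr0, hr⟩ := det_changeV (W := W) y x
    rw [hr, ext_smul_left] at h1
    have h2 := Submodule.smul_mem _ r⁻¹ h1
    rw [smul_smul, inv_mul_cancel₀ hr0, one_smul] at h2
    exact h2
  · intro h
    by_cases h0 : Module.finrank W.K V = 0
    · have h1 : V = ⊥ := Submodule.finrank_eq_zero.1 h0
      refine ⟨0, Submodule.zero_mem _, fun a ha => ?_, fun c _ => rfl⟩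
      rw [h1] at ha
      rw [(Submodule.mem_bot _).1 ha]
      rfl
    · obtain ⟨n, hn⟩ := Nat.exists_eq_succ_of_ne_zero h0
      set y := Module.finBasisOfFinrankEq W.K V hn with hy
      obtain ⟨x, hxy⟩ := exists_dualV hV hnd y
      have h1 : ext (detClass W n fun j => (y j : W.H X)) (detClass W n fun j => (y j : W.H X)) ∈
          Alg W ((pow X n).prod (pow X n)) := h n _ (isBasisV y)
      obtain ⟨r, hr0, hr⟩ := det_changeV (W := W) y x
      have h2 : ext (detClass W n fun j => (x j : W.H X)) (detClass W n fun j => (y j : W.H X)) ∈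
          Alg W ((pow X n).prod (pow X n)) := by
        rw [hr, ext_smul_left]
        exact Submodule.smul_mem _ _ h1
      exact ⟨_, (pj_iff (fun b => hV (x b).2) (fun b => hV (y b).2) hxy).2 h2,
        isOrthProj_pj x y hxy⟩

/-- The powers of the determinant line. -/
theorem power_iff_square : (∃ m, LineAlgebraic W X V m) ↔ LineAlgebraic W X V 1 := by
  constructor
  · rintro ⟨m, hm⟩ n v hv
    obtain ⟨y, hy⟩ := exists_basisV hv.1 hv.2
    obtain rfl : (fun j => (y j : W.H X)) = v := funext hy
    exact square_of_powerV hV hnd y m (hm n _ hv)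
  · exact fun h => ⟨1, h⟩

/-- The form attached to the orthogonal projector. -/
lemma line_of_form (C : ClSys W) (hodd : Odd i) {n : ℕ} (x y : Module.Basis (Fin (n + 1)) W.K V)
    (hxy : ∀ a b, W.tr X ((x a : W.H X) * (y b : W.H X)) = if a = b then 1 else 0)
    (h : ∑ b, ext (x b : W.H X) (y b : W.H X) ∈ C.S (X.prod X)) :
    (∃ p, n + 1 = 2 * p) ∧ ∃ c : W.K, c ≠ 0 ∧
      c • (detClass W n fun j => (y j : W.H X)) ∈ C.S (pow X n) :=
  det_oddV C hV (trForm V) (fun a b => by
    rw [trForm_flip hV, hodd.neg_one_pow, neg_one_mul]) x y hxy h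

/-- The determinant line in the odd case. -/
theorem orth_iff_line (hodd : Odd i) : OrthProjAlgebraic W X V ↔ LineAlgebraic W X V 0 := by
  constructor
  · rintro ⟨e, he, hee⟩ n v hv
    obtain ⟨y, hy⟩ := exists_basisV hv.1 hv.2
    obtain rfl : (fun j => (y j : W.H X)) = v := funext hy
    obtain ⟨x, hxy⟩ := exists_dualV hV hnd y
    rw [isOrthProj_unique x y hxy hee] at he
    have h1 := (form_iff_aop (fun b => hV (x b).2) (fun b => hV (y b).2)).2 he
    obtain ⟨-, c, hc, h2⟩ := line_of_form hV hnd (algSys W) hodd x y hxy h1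
    have h3 : c • (detClass W n fun j => (y j : W.H X)) ∈ Alg W (pow X n) := h2
    have h4 := Submodule.smul_mem _ c⁻¹ h3
    rw [smul_smul, inv_mul_cancel₀ hc, one_smul] at h4
    exact h4
  · intro h
    rw [orth_iff_square hV hnd, ← power_iff_square hV hnd]
    exact ⟨0, h⟩

end

end Pool.Agent.Helper70Sg
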