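import Pool.Agent.Helper70_sg.Sg6
import Pool.Agent.TH133.PW.Ev

/-!
# The sign conjecture and the determinant lines
-/

open CategoryTheory AlgebraicGeometry

universe u v

namespace Pool.Agent.Helper70Sg

open Pool.Agent.H914 Pool.Agent.H914.VarClass Pool.Agent.H914.VarClass.Obj
  Pool.Agent.H914.WeilCohomology Pool.Agent.Helper70Rk Pool.Agent.Helper70Ls Pool.Agent.H447
  Pool.Agent.TH133.PW Pool.Agent.W537 Pool.Agent.TH122.Km

variable {k : Type u} [Field k] {𝒱 : VarClass k} {ops : CycleOps 𝒱}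
  {W : WeilCohomology.{u, v} ops} {X Y Z : 𝒱.Obj}

lemma evenPart_eq : evenPart W X = pty W X 0 := by
  apply le_antisymm
  · exact iSup_le fun j => gr_le_pty (Nat.even_iff.1 j.2)
  · exact iSup_le fun j => le_iSup (fun j : {j : ℕ // Even j} => W.gr X j)
      ⟨j, Nat.even_iff.2 j.2⟩

lemma oddPart_eq : oddPart W X = pty W X 1 := by
  apply le_antisymm
  · exact iSup_le fun j => gr_le_pty (Nat.odd_iff.1 j.2)
  · exact iSup_le fun j => le_iSup (fun j : {j : ℕ // Odd j} => W.gr X j)
      ⟨j, Nat.odd_iff.2 j.2⟩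

/-- Poincare duality on the classes of one parity. -/
lemma nondeg_pty (i : ℕ) : NondegOn W X (pty W X i) := by
  intro a ha h
  apply W.nondeg
  intro b
  refine gr_induction (W.isInternal X) (p := fun b => W.tr X (a * b) = 0) ?_ ?_ b
  · intro j b hb
    by_cases hj : i % 2 = j % 2
    · exact h b (gr_le_pty hj.symm hb)
    · exact tr_pty hj ha (gr_le_pty rfl hb)
  · intro b c hb hc
    rw [mul_add, map_add, hb, hc, add_zero]

/-- Operators which separate the two parities. -/
lemma isOrthProj_pty {i : ℕ} {e : W.H X →ₗ[W.K] W.H X} :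
    IsOrthProj W X (pty W X i) e ↔
      ∀ j, ∀ a ∈ W.gr X j, e a = if j % 2 = i % 2 then a else 0 := by
  constructor
  · rintro ⟨h1, h2⟩ j a ha
    split_ifs with hj
    · exact h1 a (gr_le_pty hj ha)
    · exact h2 a fun b hb => tr_pty (fun h => hj h.symm) hb (gr_le_pty rfl ha)
  · intro h
    have hid : ∀ a ∈ pty W X i, e a = a := by
      intro a ha
      refine pty_ind (p := fun a => e a = a) ha (map_zero _) ?_ ?_
      · intro j hj a ha
        rw [h j a ha, if_pos hj]
      · intro a b h1 h2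
        rw [map_add, h1, h2]
    have hz : ∀ a ∈ pty W X (i + 1), e a = 0 := by
      intro a ha
      refine pty_ind (p := fun a => e a = 0) ha (map_zero _) ?_ ?_
      · intro j hj a ha
        rw [h j a ha, if_neg (by omega)]
      · intro a b h1 h2
        rw [map_add, h1, h2, add_zero]
    have hdec : ∀ c : W.H X, ∃ c₁ ∈ pty W X i, ∃ c₂ ∈ pty W X (i + 1), c = c₁ + c₂ := by
      intro c
      refine gr_induction (W.isInternal X)
        (p := fun c => ∃ c₁ ∈ pty W X i, ∃ c₂ ∈ pty W X (i + 1), c = c₁ + c₂) ?_ ?_ c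
      · intro j c hc
        by_cases hj : j % 2 = i % 2
        · exact ⟨c, gr_le_pty hj hc, 0, Submodule.zero_mem _, (add_zero c).symm⟩
        · exact ⟨0, Submodule.zero_mem _, c, gr_le_pty (by omega) hc, (zero_add c).symm⟩
      · rintro c d ⟨c₁, h1, c₂, h2, rfl⟩ ⟨d₁, h3, d₂, h4, rfl⟩
        exact ⟨c₁ + d₁, Submodule.add_mem _ h1 h3, c₂ + d₂, Submodule.add_mem _ h2 h4, by abel⟩
    refine ⟨hid, fun c hc => ?_⟩
    obtain ⟨c₁, h1, c₂, h2, rfl⟩ := hdec c
    have h3 : c₁ = 0 := by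
      apply nondeg_pty i c₁ h1
      intro b hb
      have h4 := hc b hb
      rw [mul_add, map_add, tr_pty (by omega) hb h2, add_zero] at h4
      rw [pty_comm h1 hb, map_smul, h4, smul_zero]
    rw [h3, zero_add, hz _ h2]

lemma aop_id : (LinearMap.id : W.H X →ₗ[W.K] W.H X) ∈ AOp W X X := by
  have h : KOp W X X 0 ≤ AOp W X X := by
    apply Submodule.span_mono
    rintro φ ⟨p, -, z, hz, rfl⟩
    exact ⟨p, z, hz, rfl⟩
  exact h (KOp.id X)

/-- The component of degree zero of a combination of correspondences. -/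
lemma kop_of_aop {F : W.H X →ₗ[W.K] W.H X} (hF : F ∈ AOp W X X) : ∃ F₀ ∈ KOp W X X 0,
    ∀ j, ∀ a ∈ W.gr X j, proj (W.isInternal X) j (F a) = F₀ a := by
  induction hF using Submodule.span_induction with
  | mem F hF =>
    obtain ⟨p, z, hz, rfl⟩ := hF
    by_cases hp : p = X.dim
    · subst hp
      have h1 : W.corr (W.cl (X.prod X) z) ∈ KOp W X X 0 := KOp.gen (p := X.dim) (by ring) hz
      exact ⟨_, h1, fun j a ha => proj_same _ (kop_gr h1 j ha)⟩
    · refine ⟨0, Submodule.zero_mem _, fun j a ha => ?_⟩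
      have h1 : W.corr (W.cl (X.prod X) z) ∈ KOp W X X ((p : ℤ) - X.dim) :=
        KOp.gen (p := p) (by ring) hz
      have h2 := KOp.isHom h1 j a (by rw [grZ_natCast]; exact ha)
      rw [LinearMap.zero_apply]
      by_cases h3 : 0 ≤ (j : ℤ) + 2 * ((p : ℤ) - X.dim)
      · obtain ⟨l, hl⟩ := Int.eq_ofNat_of_zero_le h3
        rw [hl] at h2
        have h4 : W.corr (W.cl (X.prod X) z) a ∈ W.gr X l := by
          have := h2
          rwa [grZ_natCast] at this
        exact proj_ne _ h4 (by omega)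
      · rw [grZ_of_neg (by omega)] at h2
        rw [(Submodule.mem_bot _).1 h2, map_zero]
  | zero => exact ⟨0, Submodule.zero_mem _, fun j a _ => by
      rw [LinearMap.zero_apply, map_zero]⟩
  | add F G _ _ hF hG =>
    obtain ⟨F₀, hF₀, h1⟩ := hF
    obtain ⟨G₀, hG₀, h2⟩ := hG
    exact ⟨F₀ + G₀, Submodule.add_mem _ hF₀ hG₀, fun j a ha => by
      rw [LinearMap.add_apply, map_add, h1 j a ha, h2 j a ha, LinearMap.add_apply]⟩
  | smul r F _ hF =>
    obtain ⟨F₀, hF₀, h1⟩ := hF
    exact ⟨r • F₀, Submodule.smul_mem _ _ hF₀, fun j a ha => by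
      rw [LinearMap.smul_apply, map_smul, h1 j a ha, LinearMap.smul_apply]⟩

lemma signStd_of_aop {F : W.H X →ₗ[W.K] W.H X} (hF : F ∈ AOp W X X)
    (h : ∀ j, ∀ a ∈ W.gr X j, F a = if Even j then a else 0) : SignStd W X := by
  apply signStd_of_span
  obtain ⟨F₀, hF₀, h1⟩ := kop_of_aop hF
  refine ⟨F₀, by rw [span_cycleOperators0]; exact hF₀, fun j a ha => ?_⟩
  rw [← h1 j a ha, h j a ha]
  split_ifs with hj
  · exact proj_same _ ha
  · exact map_zero _

theorem sign_iff_even : SignStd W X ↔ OrthProjAlgebraic W X (pty W X 0) := by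
  constructor
  · rintro ⟨P, hP, hP'⟩
    refine ⟨_, AOp.cyc hP, isOrthProj_pty.2 fun j a ha => ?_⟩
    rw [hP' j a ha]
    simp only [Nat.even_iff, Nat.zero_mod]
  · rintro ⟨e, he, hee⟩
    apply signStd_of_aop he
    intro j a ha
    rw [isOrthProj_pty.1 hee j a ha]
    simp only [Nat.even_iff, Nat.zero_mod]

theorem sign_iff_odd : SignStd W X ↔ OrthProjAlgebraic W X (pty W X 1) := by
  constructor
  · rintro ⟨P, hP, hP'⟩
    refine ⟨LinearMap.id - W.corr (W.cl (X.prod X) P), Submodule.sub_mem _ aop_id (AOp.cyc hP),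
      isOrthProj_pty.2 fun j a ha => ?_⟩
    rw [LinearMap.sub_apply, hP' j a ha, LinearMap.id_apply]
    by_cases hj : Even j
    · rw [if_pos hj, if_neg (by rw [Nat.even_iff] at hj; omega), sub_self]
    · rw [if_neg hj, if_pos (by rw [Nat.even_iff] at hj; omega), sub_zero]
  · rintro ⟨e, he, hee⟩
    apply signStd_of_aop (F := LinearMap.id - e) (Submodule.sub_mem _ aop_id he)
    intro j a ha
    rw [LinearMap.sub_apply, isOrthProj_pty.1 hee j a ha, LinearMap.id_apply]
    by_cases hj : Even j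
    · rw [if_pos hj, if_neg (by rw [Nat.even_iff] at hj; omega), sub_zero]
    · rw [if_neg hj, if_pos (by rw [Nat.even_iff] at hj; omega), sub_self]

/-! ### Degrees -/

lemma sg_stable (i : ℕ) : ∀ a ∈ pty W X i, sg W X a ∈ pty W X i := fun _ ha => sg_pty ha

/-- The powers of the determinant line are not zero. -/
lemma linePower_ne {i n : ℕ} (y : Module.Basis (Fin (n + 1)) W.K (pty W X i)) (m : ℕ) :
    linePower W n m (fun j => (y j : W.H X)) ≠ 0 := by
  intro h
  have ht := tr_det_self le_rfl (nondeg_pty i) y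
  set δ := detClass W n fun j => (y j : W.H X) with hδdef
  have hδ : δ ∈ pty W (pow X n) (i * (n + 1)) := det_pty n fun b => (y b).2
  obtain ⟨s, hs, h1⟩ := tr_wordsP (W := W) (X := pow X n) (ρ := 1) (p := 0)
    (gr_le_pty rfl (W.one_mem _)) (i * (n + 1)) (i * (n + 1)) m
  have h2 := h1 (fun _ => δ) (fun _ => δ) (fun _ => hδ) (fun _ => hδ)
  have h3 : extFam W m (fun _ => δ) = 0 := h
  rw [h3, zero_mul, mul_zero, map_zero] at h2
  refine (mul_ne_zero hs (Finset.prod_ne_zero_iff.2 fun j _ => ?_)) h2.symm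
  rwa [one_mul]

lemma linePower_mem {i n : ℕ} (y : Module.Basis (Fin (n + 1)) W.K (pty W X i)) (m : ℕ) :
    linePower W n m (fun j => (y j : W.H X)) ∈
      W.gr (pow (pow X n) m) (X.dim * (n + 1) * (m + 1)) :=
  extFam_mem m fun _ => det_homog (sg_stable i) y (tr_det_self le_rfl (nondeg_pty i) y)

theorem mid_iff {i : ℕ} (m : ℕ) :
    LineAlgebraicMid W X (pty W X i) m ↔ LineAlgebraic W X (pty W X i) m := by
  constructor
  · intro h n v hv
    obtain ⟨p, -, h1⟩ := h n v hv
    exact span_le_alg h1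
  · intro h n v hv
    obtain ⟨y, hy⟩ := exists_basisV hv.1 hv.2
    obtain rfl : (fun j => (y j : W.H X)) = v := funext hy
    have h1 : linePower W n m (fun j => (y j : W.H X)) ∈ Alg W (pow (pow X n) m) := h n _ hv
    have h2 := alg_hom h1 (linePower_mem y m)
    obtain ⟨p, hp⟩ : ∃ p, X.dim * (n + 1) * (m + 1) = 2 * p := by
      by_contra hcon
      push Not at hcon
      apply linePower_ne y m
      have h3 : AlgIn W (pow (pow X n) m) (X.dim * (n + 1) * (m + 1)) = ⊥ := by
        rw [AlgIn, Submodule.span_eq_bot]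
        rintro c ⟨j, z, hj, -, rfl⟩
        exact absurd hj.symm (hcon j)
      rw [h3] at h2
      exact (Submodule.mem_bot _).1 h2
    refine ⟨p, hp, alg_span h1 ?_⟩
    have h4 := linePower_mem y m
    rwa [hp] at h4

/-- Homogeneous components of classes with rational coefficients. -/
lemma rat_hom {x : W.H Z} (hx : x ∈ ratAlg W Z) {p : ℕ} (hp : x ∈ W.gr Z (2 * p)) :
    ∃ z, Z.IsCyc p z ∧ W.cl Z z = x := by
  have h1 : ∀ x ∈ ratAlg W Z, ∃ z, Z.IsCyc p z ∧
      W.cl Z z = proj (W.isInternal Z) (2 * p) x := by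
    intro x hx
    induction hx using AddSubgroup.closure_induction with
    | mem x hx =>
      obtain ⟨j, z, hz, rfl⟩ := hx
      by_cases h : j = p
      · subst h
        exact ⟨z, hz, (proj_same _ (W.cl_mem hz)).symm⟩
      · exact ⟨0, SmVar.IsCyc.zero _ _, by
          rw [map_zero, proj_ne _ (W.cl_mem hz) (by omega)]⟩
    | zero => exact ⟨0, SmVar.IsCyc.zero _ _, by rw [map_zero, map_zero]⟩
    | add x y _ _ hx hy =>
      obtain ⟨z, hz, h1⟩ := hx
      obtain ⟨w, hw, h2⟩ := hy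
      exact ⟨z + w, hz.add hw, by rw [map_add, map_add, h1, h2]⟩
    | neg x _ hx =>
      obtain ⟨z, hz, h1⟩ := hx
      refine ⟨(-1 : ℚ) • z, hz.smul _, ?_⟩
      have h2 : (-1 : ℚ) • z = -z := by rw [neg_smul, one_smul]
      rw [h2, map_neg, map_neg, h1]
  obtain ⟨z, hz, h2⟩ := h1 x hx
  exact ⟨z, hz, by rw [h2, proj_same _ hp]⟩

/-- A rational line is algebraic. -/
lemma mid_of_rational {V : Submodule W.K (W.H X)} {m : ℕ} (h : LineRational W X V m) :
    LineAlgebraicMid W X V m := by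
  intro n v hv
  obtain ⟨p, hp, z, c, hz, hc, h1⟩ := h n v hv
  refine ⟨p, hp, ?_⟩
  have h2 : linePower W n m v = c⁻¹ • W.cl (pow (pow X n) m) z := by
    rw [h1, smul_smul, inv_mul_cancel₀ hc, one_smul]
  rw [h2]
  exact Submodule.smul_mem _ _ (Submodule.subset_span ⟨p, rfl, z, hz, rfl⟩)

/-- The form in the odd case has rational coefficients. -/
lemma form_rational {i : ℕ} (h : SignStd W X) {n : ℕ}
    (x y : Module.Basis (Fin (n + 1)) W.K (pty W X i))
    (hxy : ∀ a b, W.tr X ((x a : W.H X) * (y b : W.H X)) = if a = b then 1 else 0) :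
    ∑ b, ext (x b : W.H X) (y b : W.H X) ∈ (ratSys W).S (X.prod X) := by
  obtain ⟨P, hP, hP'⟩ := h
  have hR : ∃ z, (X.prod X).IsCyc X.dim z ∧
      IsOrthProj W X (pty W X i) (W.corr (W.cl (X.prod X) z)) := by
    rcases Nat.mod_two_eq_zero_or_one i with hi | hi
    · refine ⟨P, hP, isOrthProj_pty.2 fun j a ha => ?_⟩
      rw [hP' j a ha]
      simp only [Nat.even_iff, hi]
    · have h1 : ROp W X 0 (W.corr (W.cl (X.prod X) P)) :=
        ⟨fun W => W.corr (W.cl _ P), Or.inl ⟨X.dim, by simp, P, hP, fun _ => rfl⟩, rfl⟩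
      obtain ⟨z, hz, hz'⟩ := exists_of_rop (p := X.dim) (by simp)
        (rop_opAlg.sub rop_opAlg.one h1)
      refine ⟨z, hz, isOrthProj_pty.2 fun j a ha => ?_⟩
      rw [hz', LinearMap.sub_apply, hP' j a ha, Module.End.one_apply]
      by_cases hj : Even j
      · rw [if_pos hj, if_neg (by rw [Nat.even_iff] at hj; omega), sub_self]
      · rw [if_neg hj, if_pos (by rw [Nat.even_iff] at hj; omega), sub_zero]
  obtain ⟨z, hz, hz'⟩ := hR
  have h2 := corr_pj (W := W) (fun b => (x b).2) (fun b => (y b).2)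
  rw [← isOrthProj_unique x y hxy hz', ← W.corr_smul] at h2
  rw [corr_inj_iff.1 h2]
  exact (ratSys W).neg_one_pow i (ratAlg.cl hz)

theorem rational_odd (h : SignStd W X) : LineRational W X (pty W X 1) 0 := by
  intro n v hv
  obtain ⟨y, hy⟩ := exists_basisV hv.1 hv.2
  obtain rfl : (fun j => (y j : W.H X)) = v := funext hy
  obtain ⟨x, hxy⟩ := exists_dualV le_rfl (nondeg_pty 1) y
  obtain ⟨⟨q, hq⟩, c, hc, h1⟩ := line_of_form le_rfl (nondeg_pty 1) (ratSys W) odd_one x y hxy
    (form_rational h x y hxy)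
  have hp : X.dim * (n + 1) * (0 + 1) = 2 * (X.dim * q) := by rw [hq]; ring
  have h2 : c • linePower W n 0 (fun j => (y j : W.H X)) ∈
      W.gr (pow (pow X n) 0) (2 * (X.dim * q)) := by
    rw [← hp]
    exact Submodule.smul_mem _ _ (linePower_mem y 0)
  obtain ⟨z, hz, hz'⟩ := rat_hom (Z := pow (pow X n) 0) h1 h2
  exact ⟨_, hp, z, c, hz, hc, hz'⟩

theorem rational_even (h : SignStd W X) : LineRational W X (pty W X 0) 1 := by
  intro n v hv
  obtain ⟨y, hy⟩ := exists_basisV hv.1 hv.2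
  obtain rfl : (fun j => (y j : W.H X)) = v := funext hy
  obtain ⟨x, hxy⟩ := exists_dualV le_rfl (nondeg_pty 0) y
  have h1 := det_cl (ratSys W) (fun b => (x b).2) (fun b => (y b).2) (form_rational h x y hxy)
  obtain ⟨r, hr0, hr⟩ := det_changeV (W := W) y x
  rw [hr, ext_smul_left] at h1
  have hp : X.dim * (n + 1) * (1 + 1) = 2 * (X.dim * (n + 1)) := by ring
  have h2 : r • linePower W n 1 (fun j => (y j : W.H X)) ∈
      W.gr (pow (pow X n) 1) (2 * (X.dim * (n + 1))) := by
    rw [← hp]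
    exact Submodule.smul_mem _ _ (linePower_mem y 1)
  obtain ⟨z, hz, hz'⟩ := rat_hom (Z := pow (pow X n) 1) h1 h2
  exact ⟨_, hp, z, r, hz, hr0, hz'⟩

end Pool.Agent.Helper70Sg
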