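import Pool.Agent.Helper70_sg.Sg7

/-!
# Dual families
-/

open CategoryTheory AlgebraicGeometry

universe u v

namespace Pool.Agent.Helper70Sg

open Pool.Agent.H914 Pool.Agent.H914.VarClass Pool.Agent.H914.VarClass.Obj
  Pool.Agent.H914.WeilCohomology Pool.Agent.Helper70Rk Pool.Agent.Helper70Ls

variable {k : Type u} [Field k] {𝒱 : VarClass k} {ops : CycleOps 𝒱}
  {W : WeilCohomology.{u, v} ops} {X Y Z : 𝒱.Obj} {n i : ℕ} {x y : Fin (n + 1) → W.H X}

lemma projAlgebraic_iff : ProjAlgebraic W X n x y ↔ pj x y ∈ AOp W X X := by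
  rw [mem_aop]
  constructor
  · rintro ⟨γ, hγ, h⟩
    exact ⟨γ, hγ, LinearMap.ext fun c => by rw [h c, pj_apply]; rfl⟩
  · rintro ⟨γ, hγ, h⟩
    exact ⟨γ, hγ, fun c => by rw [← h, pj_apply]; rfl⟩

lemma dual_apply (hd : DualFamilies W X n x y) (a b : Fin (n + 1)) :
    W.tr X (x a * y b) = if a = b then 1 else 0 := hd a b

lemma dual_indep (hd : DualFamilies W X n x y) : LinearIndependent W.K y := by
  replace hd := dual_apply hd
  rw [Fintype.linearIndependent_iff]
  intro g hg a
  have h1 := congrArg (fun z => W.tr X (x a * z)) hg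
  simp only [Finset.mul_sum, mul_smul_comm, map_sum, map_smul, mul_zero, map_zero] at h1
  rw [Finset.sum_eq_single a] at h1
  · rwa [hd, if_pos rfl, smul_eq_mul, mul_one] at h1
  · intro b _ hb
    rw [hd, if_neg (Ne.symm hb), smul_zero]
  · intro h
    exact absurd (Finset.mem_univ a) h

lemma dual_indep' (hd : DualFamilies W X n x y) : LinearIndependent W.K x := by
  replace hd := dual_apply hd
  rw [Fintype.linearIndependent_iff]
  intro g hg a
  have h1 := congrArg (fun z => W.tr X (z * y a)) hg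
  simp only [Finset.sum_mul, smul_mul_assoc, map_sum, map_smul, zero_mul, map_zero] at h1
  rw [Finset.sum_eq_single a] at h1
  · rwa [hd, if_pos rfl, smul_eq_mul, mul_one] at h1
  · intro b _ hb
    rw [hd, if_neg hb, smul_zero]
  · intro h
    exact absurd (Finset.mem_univ a) h

/-- The restriction of the pairing is nondegenerate. -/
lemma nondeg_span (hx : ∀ b, x b ∈ pty W X i) (hy : ∀ b, y b ∈ pty W X i)
    (hd : DualFamilies W X n x y) (hs : SameSpan W X n x y) :
    NondegOn W X (Submodule.span W.K (Set.range y)) := by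
  replace hd := dual_apply hd
  intro a ha h
  have ha' : a ∈ pty W X i := by
    refine (Submodule.span_le.2 ?_ : Submodule.span W.K (Set.range y) ≤ pty W X i) ha
    rintro _ ⟨b, rfl⟩
    exact hy b
  obtain ⟨g, rfl⟩ := (Submodule.mem_span_range_iff_exists_fun W.K).1 ha
  have h1 : ∀ b, g b = 0 := by
    intro b
    have h2 : W.tr X (x b * ∑ j, g j • y j) = g b := by
      rw [Finset.mul_sum, map_sum, Finset.sum_eq_single b]
      · rw [mul_smul_comm, map_smul, hd, if_pos rfl, smul_eq_mul, mul_one]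
      · intro c _ hc
        rw [mul_smul_comm, map_smul, hd, if_neg (Ne.symm hc), smul_zero]
      · intro h
        exact absurd (Finset.mem_univ b) h
    have h3 := h (x b) (by rw [← hs]; exact Submodule.subset_span ⟨b, rfl⟩)
    rw [← h2, pty_comm (hx b) ha', map_smul, h3, smul_zero]
  exact Finset.sum_eq_zero fun b _ => by rw [h1 b, zero_smul]

theorem proj_iff_pair (hx : ∀ b, x b ∈ pty W X i) (hy : ∀ b, y b ∈ pty W X i)
    (hd : DualFamilies W X n x y) : ProjAlgebraic W X n x y ↔ PairAlgebraic W X n x y := by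
  rw [projAlgebraic_iff]
  exact pj_iff hx hy hd

theorem pair_iff_square (hx : ∀ b, x b ∈ pty W X i) (hy : ∀ b, y b ∈ pty W X i)
    (hd : DualFamilies W X n x y) (hs : SameSpan W X n x y) :
    (PairAlgebraic W X n x y ↔ PowerAlgebraic W X n 1 y) ∧
    ((∃ m, PowerAlgebraic W X n m y) ↔ PowerAlgebraic W X n 1 y) ∧
    (Odd i → (ProjAlgebraic W X n x y ↔ PowerAlgebraic W X n 0 y)) := by
  set V := Submodule.span W.K (Set.range y) with hVdef
  have hV : V ≤ pty W X i := by
    rw [hVdef, Submodule.span_le]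
    rintro _ ⟨b, rfl⟩
    exact hy b
  have hnd : NondegOn W X V := nondeg_span hx hy hd hs
  obtain ⟨y', hy'⟩ := exists_basisV (V := V) (dual_indep hd) rfl
  obtain ⟨x', hx'⟩ := exists_basisV (V := V) (dual_indep' hd) hs
  have ey : (fun j => (y' j : W.H X)) = y := funext hy'
  have ex : (fun j => (x' j : W.H X)) = x := funext hx'
  obtain ⟨r, hr0, hr⟩ := det_changeV (W := W) y' x'
  rw [ex, ey] at hr
  have h1 : PairAlgebraic W X n x y ↔ PowerAlgebraic W X n 1 y := by
    have e : ext (detClass W n x) (detClass W n y) =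
        r • ext (detClass W n y) (detClass W n y) := by rw [hr, ext_smul_left]
    constructor
    · intro h
      have h2 : ext (detClass W n x) (detClass W n y) ∈ Alg W ((pow X n).prod (pow X n)) := h
      rw [e] at h2
      have h3 := Submodule.smul_mem _ r⁻¹ h2
      rw [smul_smul, inv_mul_cancel₀ hr0, one_smul] at h3
      exact h3
    · intro h
      have h2 : ext (detClass W n y) (detClass W n y) ∈ Alg W ((pow X n).prod (pow X n)) := h
      have h3 := Submodule.smul_mem _ r h2
      rw [← e] at h3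
      exact h3
  have h2 : (∃ m, PowerAlgebraic W X n m y) ↔ PowerAlgebraic W X n 1 y := by
    constructor
    · rintro ⟨m, hm⟩
      have h3 := square_of_powerV hV hnd y' m (by rw [ey]; exact hm)
      rw [ey] at h3
      exact h3
    · exact fun h => ⟨1, h⟩
  refine ⟨h1, h2, fun hodd => ⟨fun h => ?_, fun h => ?_⟩⟩
  · rw [projAlgebraic_iff, ← form_iff_aop hx hy] at h
    obtain ⟨-, c, hc, h3⟩ := line_of_form hV hnd (algSys W) hodd x' y'
      (fun a b => by rw [hx', hy']; exact hd a b) (by simp only [hx', hy']; exact h)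
    rw [ey] at h3
    have h4 : c • detClass W n y ∈ Alg W (pow X n) := h3
    have h5 := Submodule.smul_mem _ c⁻¹ h4
    rw [smul_smul, inv_mul_cancel₀ hc, one_smul] at h5
    exact h5
  · rw [proj_iff_pair hx hy hd, h1, ← h2]
    exact ⟨0, h⟩

/-- **The principle for dual families.** -/
theorem dual_principle (h : SameParity W X n x y) (hd : DualFamilies W X n x y) :
    (ProjAlgebraic W X n x y ↔ PairAlgebraic W X n x y) ∧
    (SameSpan W X n x y → List.TFAE [ProjAlgebraic W X n x y, PowerAlgebraic W X n 1 y,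
      ∃ m, PowerAlgebraic W X n m y]) ∧
    (SameSpan W X n x y → FamIn W X (oddPart W X) n y →
      (ProjAlgebraic W X n x y ↔ PowerAlgebraic W X n 0 y)) := by
  have key : ∃ i, (∀ b, x b ∈ pty W X i) ∧ ∀ b, y b ∈ pty W X i := by
    rcases h with h | h
    · exact ⟨0, fun b => by rw [← evenPart_eq]; exact h.1 b,
        fun b => by rw [← evenPart_eq]; exact h.2 b⟩
    · exact ⟨1, fun b => by rw [← oddPart_eq]; exact h.1 b,
        fun b => by rw [← oddPart_eq]; exact h.2 b⟩
  obtain ⟨i, hx, hy⟩ := key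
  refine ⟨proj_iff_pair hx hy hd, fun hs => ?_, fun hs hodd => ?_⟩
  · obtain ⟨h1, h2, -⟩ := pair_iff_square hx hy hd hs
    tfae_have 1 ↔ 2 := by rw [proj_iff_pair hx hy hd, h1]
    tfae_have 3 ↔ 2 := h2
    tfae_finish
  · have hy1 : ∀ b, y b ∈ pty W X 1 := fun b => by rw [← oddPart_eq]; exact hodd b
    have hx1 : ∀ b, x b ∈ pty W X 1 := by
      intro b
      have h3 : x b ∈ Submodule.span W.K (Set.range x) := Submodule.subset_span ⟨b, rfl⟩
      rw [hs] at h3
      refine (Submodule.span_le.2 ?_ : Submodule.span W.K (Set.range y) ≤ pty W X 1) h3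
      rintro _ ⟨a, rfl⟩
      exact hy1 a
    exact (pair_iff_square hx1 hy1 hd hs).2.2 odd_one

end Pool.Agent.Helper70Sg
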